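import Pool.Agent.Lib.MP_987db6_al.Chars

namespace Pool.Agent.Lib.MP_987db6_al

open QuaternionGroup

/-- Heisenberg group of order 27 -/
@[ext] structure E where
  a : ZMod 3
  b : ZMod 3
  c : ZMod 3
  deriving DecidableEq, Fintype

instance : Mul E := ⟨fun x y => ⟨x.a + y.a, x.b + y.b, x.c + y.c + (x.a * y.b - x.b * y.a)⟩⟩
instance : One E := ⟨⟨0, 0, 0⟩⟩
instance : Inv E := ⟨fun x => ⟨-x.a, -x.b, -x.c⟩⟩

theorem E.mul_def (x y : E) :
    x * y = ⟨x.a + y.a, x.b + y.b, x.c + y.c + (x.a * y.b - x.b * y.a)⟩ := rfl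

instance : Group E := Group.ofLeftAxioms
  (by intro x y z; simp only [E.mul_def, E.mk.injEq]; refine ⟨?_, ?_, ?_⟩ <;> ring)
  (by decide) (by decide)

/-- quaternion group of order 8 -/
abbrev Q := QuaternionGroup 2

/-- rotation -/
def rot (x : E) : E := ⟨-x.b, x.a, x.c⟩

/-- the action of `Q` on `E` -/
def act : Q → E → E
  | a i, x => rot^[i.val] x
  | xa i, x => let y := rot^[i.val] x; ⟨-y.a - y.b, -y.a + y.b, y.c⟩

/-- the action as a homomorphism -/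
def φ : Q →* MulAut E where
  toFun u :=
    { toFun := act u
      invFun := act u⁻¹
      left_inv := by revert u; unfold Function.LeftInverse; decide +kernel
      right_inv := by revert u; unfold Function.RightInverse Function.LeftInverse; decide +kernel
      map_mul' := by revert u; decide +kernel }
  map_one' := by
    ext1 x; revert x; decide +kernel
  map_mul' := by
    intro u v; ext1 x; revert u v x; decide +kernel

/-- the group of order 216 -/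
abbrev K := E ⋊[φ] Q

instance : Fintype K := Fintype.ofEquiv (E × Q) SemidirectProduct.equivProd.symm

/-- Eisenstein integers -/
abbrev R := QuadraticAlgebra ℤ (-1) (-1)

/-- matrices -/
abbrev M3 := Matrix (Fin 3) (Fin 3) R

/-- shift -/
def mX : M3 := !![⟨1, 0⟩, ⟨0, 0⟩, ⟨0, 0⟩; ⟨-1, -2⟩, ⟨0, 0⟩, ⟨-1, 0⟩; ⟨0, 0⟩, ⟨1, 0⟩, ⟨-1, 0⟩]
/-- clock -/
def mZ : M3 := !![⟨1, 0⟩, ⟨-1, -1⟩, ⟨1, 0⟩; ⟨0, 0⟩, ⟨0, 1⟩, ⟨-1, -2⟩; ⟨0, 0⟩, ⟨0, 0⟩, ⟨-1, -1⟩]
/-- Fourier -/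
def mF : M3 := !![⟨-1, -2⟩, ⟨-1, 0⟩, ⟨0, 0⟩; ⟨-2, 0⟩, ⟨1, 2⟩, ⟨0, 0⟩; ⟨-1, 0⟩, ⟨0, 1⟩, ⟨1, 0⟩]
/-- conjugate of Fourier -/
def mJ : M3 := !![⟨1, 0⟩, ⟨-1, -1⟩, ⟨0, 0⟩; ⟨0, -2⟩, ⟨-1, 0⟩, ⟨0, 0⟩; ⟨0, -1⟩, ⟨-1, 0⟩, ⟨1, 0⟩]

/-- powers of the cube root of unity -/
def wp (c : ZMod 3) : R := if c = 0 then ⟨1, 0⟩ else if c = 1 then ⟨0, 1⟩ else ⟨-1, -1⟩

/-- representation of `E` -/
def rE (x : E) : M3 := wp (x.c + 2 * x.a * x.b) • (mX ^ x.a.val * mZ ^ x.b.val)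

/-- representation of `Q` -/
def rQ : Q → M3
  | a i => mF ^ i.val
  | xa i => mJ * mF ^ i.val

theorem rE_mul : ∀ x y, rE (x * y) = rE x * rE y := by decide +kernel
theorem rQ_mul : ∀ x y, rQ (x * y) = rQ x * rQ y := by decide +kernel
theorem rEQ : ∀ u x, rE (act u x) * rQ u = rQ u * rE x := by decide +kernel

/-- Weil representation -/
def rK : K →* M3 where
  toFun g := rE g.left * rQ g.right
  map_one' := by decide +kernel
  map_mul' g h := by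
    have := rEQ g.right h.left
    simp only [SemidirectProduct.mul_left, SemidirectProduct.mul_right, rE_mul, rQ_mul]
    show rE g.left * rE (act g.right h.left) * _ = _
    rw [mul_assoc, ← mul_assoc (rE (act _ _)), this]
    simp only [mul_assoc]

end Pool.Agent.Lib.MP_987db6_al
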