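import Mathlib

namespace Pool.Agent.Lib.MP_987db6_al

open Finset

variable {G : Type} [Group G]

/-- irreducible complex character -/
def IsIrr (χ : G → ℂ) : Prop := ∃ V : FDRep ℂ G, CategoryTheory.Simple V ∧ V.character = χ

/-- trace of a matrix representation -/
def IsCh (χ : G → ℂ) : Prop :=
  ∃ (n : Type) (_ : Fintype n) (_ : DecidableEq n) (ρ : G →* Matrix n n ℂ), ∀ g, χ g = (ρ g).trace

/-- unnormalised scalar product -/
noncomputable def ip [Fintype G] (f g : G → ℂ) : ℂ := ∑ h, f h * g h⁻¹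

/-- matrix character of norm one -/
def Good [Fintype G] (χ : G → ℂ) : Prop := IsCh χ ∧ ip χ χ = Fintype.card G

theorem IsCh.exists_fdRep {χ : G → ℂ} (h : IsCh χ) : ∃ V : FDRep ℂ G, V.character = χ := by
  obtain ⟨n, _, _, ρ, h⟩ := h
  let ρ' : Representation ℂ G (n → ℂ) :=
    ((Matrix.toLinAlgEquiv' (R := ℂ) (n := n)).toMulEquiv.toMonoidHom).comp ρ
  refine ⟨FDRep.of ρ', funext fun g => ?_⟩
  rw [h]
  exact Matrix.trace_toLin'_eq (ρ g)

theorem Good.isIrr [Fintype G] {χ : G → ℂ} (h : Good χ) : IsIrr χ := by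
  obtain ⟨V, rfl⟩ := h.1.exists_fdRep
  refine ⟨V, ?_, rfl⟩
  rw [FDRep.simple_iff_char_is_norm_one, Nat.card_eq_fintype_card]
  exact h.2

theorem IsIrr.conj {χ : G → ℂ} (h : IsIrr χ) {x g : G} (hc : IsConj x g) : χ g = χ x := by
  obtain ⟨V, _, rfl⟩ := h
  obtain ⟨c, rfl⟩ := isConj_iff.1 hc
  exact V.char_conj x c

theorem IsIrr.deg {χ : G → ℂ} (h : IsIrr χ) : ∃ n : ℕ, χ 1 = n := by
  obtain ⟨V, _, rfl⟩ := h
  exact ⟨_, V.char_one⟩

theorem IsCh.mul_comm {χ : G → ℂ} (h : IsCh χ) (a b : G) : χ (a * b) = χ (b * a) := by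
  obtain ⟨n, _, _, ρ, h⟩ := h
  rw [h, h, map_mul, map_mul, Matrix.trace_mul_comm]

theorem IsIrr.ip_eq_zero [Fintype G] {χ ψ : G → ℂ} (h : IsIrr χ) (h' : IsIrr ψ) (hne : χ ≠ ψ) :
    ip χ ψ = 0 := by
  classical
  obtain ⟨V, _, rfl⟩ := h
  obtain ⟨W, _, rfl⟩ := h'
  have hc : (Nat.card G : ℂ) ≠ 0 := Nat.cast_ne_zero.2 Nat.card_pos.ne'
  have := invertibleOfNonzero hc
  have h := FDRep.char_orthonormal V W
  rw [if_neg (fun ⟨i⟩ => hne (FDRep.char_iso i))] at h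
  simpa [ip, hc] using h

theorem IsCh.comp {H : Type} [Group H] {χ : G → ℂ} (h : IsCh χ) (f : H →* G) : IsCh (χ ∘ f) := by
  obtain ⟨n, _, _, ρ, h⟩ := h
  exact ⟨n, inferInstance, inferInstance, ρ.comp f, fun g => h _⟩

theorem Good.comp [Fintype G] {H : Type} [Group H] [Fintype H] {χ : G → ℂ} (h : Good χ)
    (f : H ≃* G) : Good (χ ∘ f) := by
  refine ⟨h.1.comp f.toMonoidHom, ?_⟩
  rw [Fintype.card_congr f.toEquiv, ← h.2, ip, ip, ← f.toEquiv.sum_comp]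
  simp

theorem IsCh.mul {χ ψ : G → ℂ} (h : IsCh χ) (h' : IsCh ψ) : IsCh (χ * ψ) := by
  obtain ⟨n, _, _, ρ, h⟩ := h
  obtain ⟨m, _, _, σ, h'⟩ := h'
  refine ⟨n × m, inferInstance, inferInstance,
    ⟨⟨fun g => Matrix.kronecker (ρ g) (σ g), by simp⟩, fun a b => by
      simp [Matrix.mul_kronecker_mul]⟩, fun g => ?_⟩
  simp [h, h', Matrix.trace_kronecker]

theorem good_of_hom [Fintype G] (μ : G →* ℂ) : Good (μ : G → ℂ) := by
  constructor
  · refine ⟨Unit, inferInstance, inferInstance,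
      (Matrix.scalar Unit).toMonoidHom.comp μ, fun g => ?_⟩
    simp [Matrix.trace]
  · simp [ip, ← map_mul, -map_inv]

/-- the family `F` detects the class of `x` -/
def Det (F : Set (G → ℂ)) (x : G) : Prop :=
  ∃ f ∈ Submodule.span ℂ F, f x⁻¹ ≠ 0 ∧ ∀ g, f g⁻¹ ≠ 0 → IsConj x g

theorem Det.mem [Fintype G] {F : Set (G → ℂ)} (hF : ∀ χ ∈ F, Good χ) {x : G} (h : Det F x)
    {χ : G → ℂ} (hχ : IsIrr χ) (hx : χ x ≠ 0) : χ ∈ F := by
  classical
  by_contra hn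
  obtain ⟨f, hf, h1, h2⟩ := h
  have key : ip χ f = 0 ∧ ∀ g, IsConj x g → f g⁻¹ = f x⁻¹ := by
    clear h1 h2
    induction hf using Submodule.span_induction with
    | mem ψ hψ =>
      refine ⟨hχ.ip_eq_zero (hF ψ hψ).isIrr (fun e => hn (e ▸ hψ)), fun g hg => ?_⟩
      obtain ⟨c, rfl⟩ := isConj_iff.1 hg
      apply (hF ψ hψ).isIrr.conj
      exact isConj_iff.2 ⟨c, by group⟩
    | zero => simp [ip]
    | add a b _ _ ha hb =>
      refine ⟨?_, fun g hg => by simp [ha.2 g hg, hb.2 g hg]⟩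
      have := congrArg₂ (· + ·) ha.1 hb.1
      simpa [ip, mul_add, Finset.sum_add_distrib] using this
    | smul c a _ ha =>
      refine ⟨?_, fun g hg => by simp [ha.2 g hg]⟩
      have := congrArg (c * ·) ha.1
      simpa [ip, Finset.mul_sum, mul_left_comm] using this
  have e : ip χ f = ∑ g ∈ univ.filter (fun g => IsConj x g), χ x * f x⁻¹ := by
    rw [ip, Finset.sum_filter]
    refine Finset.sum_congr rfl fun g _ => ?_
    split_ifs with hg
    · rw [hχ.conj hg, key.2 g hg]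
    · have : f g⁻¹ = 0 := by
        by_contra h; exact hg (h2 g h)
      rw [this, mul_zero]
  rw [key.1, Finset.sum_const, nsmul_eq_mul] at e
  have hpos : (univ.filter (fun g => IsConj x g)).card ≠ 0 :=
    Finset.card_ne_zero.2 ⟨x, Finset.mem_filter.2 ⟨Finset.mem_univ _, IsConj.refl x⟩⟩
  exact mul_ne_zero (Nat.cast_ne_zero.2 hpos) (mul_ne_zero hx h1) e.symm

end Pool.Agent.Lib.MP_987db6_al
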