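import Pool.Agent.Lib.MP_987db6_al.Chars

namespace Pool.Agent.Lib.MP_987db6_al

open Finset

/-- wreath product with the group of order two -/
@[ext] structure W (H : Type) where
  l : H
  r : H
  s : Bool

namespace W

variable {H : Type} [Group H]

instance : Mul (W H) := ⟨fun a b =>
  ⟨a.l * (if a.s then b.r else b.l), a.r * (if a.s then b.l else b.r), xor a.s b.s⟩⟩
instance : One (W H) := ⟨⟨1, 1, false⟩⟩
instance : Inv (W H) := ⟨fun a =>
  ⟨if a.s then a.r⁻¹ else a.l⁻¹, if a.s then a.l⁻¹ else a.r⁻¹, a.s⟩⟩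

theorem mul_def (a b : W H) : a * b =
  ⟨a.l * (if a.s then b.r else b.l), a.r * (if a.s then b.l else b.r), xor a.s b.s⟩ := rfl
theorem one_def : (1 : W H) = ⟨1, 1, false⟩ := rfl
theorem inv_def (a : W H) : a⁻¹ =
  ⟨if a.s then a.r⁻¹ else a.l⁻¹, if a.s then a.l⁻¹ else a.r⁻¹, a.s⟩ := rfl

instance : Group (W H) := Group.ofLeftAxioms
  (by rintro ⟨a, b, _ | _⟩ ⟨c, d, _ | _⟩ ⟨e, f, _ | _⟩ <;> simp [mul_def, mul_assoc])
  (by rintro ⟨a, b, _ | _⟩ <;> simp [mul_def, one_def])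
  (by rintro ⟨a, b, _ | _⟩ <;> simp [mul_def, one_def, inv_def])

/-- coordinates -/
def equivProd (H : Type) : W H ≃ H × H × Bool where
  toFun a := (a.l, a.r, a.s)
  invFun p := ⟨p.1, p.2.1, p.2.2⟩

instance {H : Type} [Fintype H] : Fintype (W H) := Fintype.ofEquiv _ (equivProd H).symm

theorem card {H : Type} [Fintype H] : Fintype.card (W H) = 2 * Fintype.card H ^ 2 := by
  rw [Fintype.card_congr (equivProd H)]; simp; ring

theorem sum_eq {H : Type} [Fintype H] (f : W H → ℂ) :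
    ∑ w, f w = ∑ a, ∑ b, f ⟨a, b, false⟩ + ∑ a, ∑ b, f ⟨a, b, true⟩ := by
  rw [← (equivProd H).symm.sum_comp]
  simp [Fintype.sum_prod_type, equivProd, Finset.sum_add_distrib, add_comm]

end W

variable {H : Type} [Group H]

/-- induced function -/
def Ind (f g : H → ℂ) (w : W H) : ℂ := if w.s then 0 else f w.l * g w.r + f w.r * g w.l

/-- tensor extension -/
def Ext (ε : ℂ) (f : H → ℂ) (w : W H) : ℂ := if w.s then ε * f (w.l * w.r) else f w.l * f w.r

omit [Group H] in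
theorem Ind_comm (f g : H → ℂ) : Ind f g = Ind g f := by
  funext w; simp only [Ind]; split_ifs <;> ring

theorem Ind_self (f : H → ℂ) : Ind f f = Ext 1 f + Ext (-1) f := by
  funext w; simp only [Ind, Ext, Pi.add_apply]; split_ifs <;> ring

theorem IsCh.ind {f g : H → ℂ} (hf : IsCh f) (hg : IsCh g) : IsCh (Ind f g) := by
  obtain ⟨n, _, _, ρ, h⟩ := hf
  obtain ⟨m, _, _, σ, h'⟩ := hg
  let R : W H → Matrix ((n × m) ⊕ (n × m)) ((n × m) ⊕ (n × m)) ℂ := fun w =>
    if w.s then Matrix.fromBlocks 0 (Matrix.kronecker (ρ w.l) (σ w.r))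
      (Matrix.kronecker (ρ w.r) (σ w.l)) 0
    else Matrix.fromBlocks (Matrix.kronecker (ρ w.l) (σ w.r)) 0 0
      (Matrix.kronecker (ρ w.r) (σ w.l))
  refine ⟨_, inferInstance, inferInstance, ⟨⟨R, by simp [R, W.one_def]⟩, ?_⟩, ?_⟩
  · rintro ⟨a, b, _ | _⟩ ⟨c, d, _ | _⟩ <;>
      simp [R, W.mul_def, Matrix.fromBlocks_multiply, Matrix.mul_kronecker_mul]
  · rintro ⟨a, b, _ | _⟩ <;>
      simp [R, Ind, h, h', Matrix.trace, Fintype.sum_prod_type, Finset.sum_mul_sum]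

theorem IsCh.ext {f : H → ℂ} (hf : IsCh f) {ε : ℂ} (hε : ε * ε = 1) : IsCh (Ext ε f) := by
  obtain ⟨n, _, _, ρ, h⟩ := hf
  let P : Matrix (n × n) (n × n) ℂ := ε • (Equiv.prodComm n n).toPEquiv.toMatrix
  have hP : ∀ A B : Matrix n n ℂ, P * Matrix.kronecker A B = Matrix.kronecker B A * P := by
    intro A B
    simp only [P, Matrix.smul_mul, Matrix.mul_smul, PEquiv.toMatrix_toPEquiv_mul,
      PEquiv.mul_toMatrix_toPEquiv]
    congr 1
    ext ⟨i, j⟩ ⟨k, l⟩
    simp [_root_.mul_comm]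
  have hPP : P * P = 1 := by
    simp only [P, Matrix.smul_mul, Matrix.mul_smul, smul_smul, hε, one_smul,
      PEquiv.toMatrix_toPEquiv_mul]
    ext ⟨i, j⟩ ⟨k, l⟩
    simp [Matrix.one_apply, PEquiv.toMatrix_apply]
  let R : W H → Matrix (n × n) (n × n) ℂ := fun w =>
    Matrix.kronecker (ρ w.l) (ρ w.r) * if w.s then P else 1
  refine ⟨_, inferInstance, inferInstance, ⟨⟨R, by simp [R, W.one_def]⟩, ?_⟩, ?_⟩
  · rintro ⟨a, b, _ | _⟩ ⟨c, d, _ | _⟩
    · simp [R, W.mul_def, Matrix.mul_kronecker_mul]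
    · simp [R, W.mul_def, Matrix.mul_kronecker_mul, Matrix.mul_assoc]
    · simp only [R, W.mul_def, if_true, Bool.true_xor, Bool.not_false, map_mul,
        Bool.false_eq_true, if_false, mul_one, Matrix.mul_assoc, hP]
      simp [Matrix.mul_kronecker_mul, Matrix.mul_assoc]
    · simp only [R, W.mul_def, if_true, Bool.true_xor, Bool.not_true, map_mul,
        Bool.false_eq_true, if_false, mul_one]
      rw [Matrix.mul_assoc, ← Matrix.mul_assoc P, hP, Matrix.mul_assoc, hPP]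
      simp [Matrix.mul_kronecker_mul]
  · rintro ⟨a, b, _ | _⟩
    · simp [R, Ext, h, Matrix.trace_kronecker]
    · simp only [R, Ext, h, P, if_true, map_mul, MonoidHom.coe_mk, OneHom.coe_mk, Matrix.mul_smul,
        PEquiv.mul_toMatrix_toPEquiv, Matrix.trace_smul, smul_eq_mul]
      simp [Matrix.trace, Fintype.sum_prod_type, Matrix.mul_apply]

variable [Fintype H]

theorem ip_Ind (f g f' g' : H → ℂ) :
    ip (Ind f g) (Ind f' g') = 2 * (ip f f' * ip g g' + ip f g' * ip g f') := by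
  rw [ip, W.sum_eq]
  simp only [Ind, W.inv_def, Bool.false_eq_true, if_false, if_true, zero_mul, Finset.sum_const_zero,
    add_zero, ip, Finset.sum_mul_sum, add_mul, mul_add, Finset.sum_add_distrib]
  rw [Finset.sum_comm (f := fun a b => f b * g a * (f' a⁻¹ * g' b⁻¹)),
    Finset.sum_comm (f := fun a b => f b * g a * (f' b⁻¹ * g' a⁻¹))]
  have e1 : ∀ a b, f a * g b * (f' a⁻¹ * g' b⁻¹) = f a * f' a⁻¹ * (g b * g' b⁻¹) := by
    intros; ring
  have e2 : ∀ a b, f a * g b * (f' b⁻¹ * g' a⁻¹) = f a * g' a⁻¹ * (g b * f' b⁻¹) := by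
    intros; ring
  simp only [e1, e2]
  ring

theorem Good.ind {f g : H → ℂ} (hf : Good f) (hg : Good g) (h : f ≠ g) : Good (Ind f g) := by
  refine ⟨hf.1.ind hg.1, ?_⟩
  rw [ip_Ind, hf.2, hg.2, hf.isIrr.ip_eq_zero hg.isIrr h, W.card]
  push_cast; ring

theorem Good.ext {f : H → ℂ} (hf : Good f) {ε : ℂ} (hε : ε * ε = 1) : Good (Ext ε f) := by
  refine ⟨hf.1.ext hε, ?_⟩
  rw [ip, W.sum_eq]
  simp only [Ext, W.inv_def, Bool.false_eq_true, if_false, if_true]
  have e1 : ∑ a, ∑ b, f a * f b * (f a⁻¹ * f b⁻¹) = ip f f * ip f f := by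
    simp only [ip, Finset.sum_mul_sum]
    exact Finset.sum_congr rfl fun a _ => Finset.sum_congr rfl fun b _ => by ring
  have e2 : ∀ a, ∑ b, ε * f (a * b) * (ε * f (b⁻¹ * a⁻¹)) = ip f f := by
    intro a
    rw [ip, ← Equiv.sum_comp (Equiv.mulLeft a) (fun h => f h * f h⁻¹)]
    refine Finset.sum_congr rfl fun b _ => ?_
    simp only [Equiv.coe_mulLeft, mul_inv_rev]
    linear_combination f (a * b) * f (b⁻¹ * a⁻¹) * hε
  simp only [e1, e2, hf.2, Finset.sum_const, card_univ, nsmul_eq_mul, W.card]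
  push_cast; ring

/-- the family on the wreath product -/
def wrF (F : Set (H → ℂ)) : Set (W H → ℂ) :=
  {χ | (∃ f ∈ F, ∃ g ∈ F, f ≠ g ∧ χ = Ind f g) ∨ ∃ f ∈ F, χ = Ext 1 f ∨ χ = Ext (-1) f}

theorem good_wrF {F : Set (H → ℂ)} (hF : ∀ χ ∈ F, Good χ) : ∀ χ ∈ wrF F, Good χ := by
  rintro χ (⟨f, hf, g, hg, h, rfl⟩ | ⟨f, hf, rfl | rfl⟩)
  · exact (hF f hf).ind (hF g hg) h
  · exact (hF f hf).ext (by simp)
  · exact (hF f hf).ext (by simp)

omit [Fintype H] in
theorem Ind_mem_span {F : Set (H → ℂ)} {f g : H → ℂ} (hf : f ∈ Submodule.span ℂ F)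
    (hg : g ∈ Submodule.span ℂ F) : Ind f g ∈ Submodule.span ℂ (wrF F) := by
  induction hf, hg using Submodule.span_induction₂ with
  | mem_mem f g hf hg =>
    by_cases h : f = g
    · subst h
      rw [Ind_self]
      exact Submodule.add_mem _ (Submodule.subset_span (Or.inr ⟨f, hf, Or.inl rfl⟩))
        (Submodule.subset_span (Or.inr ⟨f, hf, Or.inr rfl⟩))
    · exact Submodule.subset_span (Or.inl ⟨f, hf, g, hg, h, rfl⟩)
  | zero_left g _ =>
    convert Submodule.zero_mem _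
    funext w; simp [Ind]
  | zero_right f _ =>
    convert Submodule.zero_mem _
    funext w; simp [Ind]
  | add_left a b c _ _ _ h1 h2 =>
    convert Submodule.add_mem _ h1 h2
    funext w; simp only [Ind, Pi.add_apply]; split_ifs <;> ring
  | add_right a b c _ _ _ h1 h2 =>
    convert Submodule.add_mem _ h1 h2
    funext w; simp only [Ind, Pi.add_apply]; split_ifs <;> ring
  | smul_left r a b _ _ h =>
    convert Submodule.smul_mem _ r h
    funext w; simp only [Ind, Pi.smul_apply, smul_eq_mul]; split_ifs <;> ring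
  | smul_right r a b _ _ h =>
    convert Submodule.smul_mem _ r h
    funext w; simp only [Ind, Pi.smul_apply, smul_eq_mul]; split_ifs <;> ring

omit [Fintype H] in
theorem isConj_W {a b c d : H} (h1 : IsConj a c) (h2 : IsConj b d) :
    IsConj (⟨a, b, false⟩ : W H) ⟨c, d, false⟩ ∧ IsConj (⟨a, b, false⟩ : W H) ⟨d, c, false⟩ := by
  obtain ⟨u, rfl⟩ := isConj_iff.1 h1
  obtain ⟨v, rfl⟩ := isConj_iff.1 h2
  exact ⟨isConj_iff.2 ⟨⟨u, v, false⟩, by simp [W.mul_def, W.inv_def]⟩,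
    isConj_iff.2 ⟨⟨v, u, true⟩, by simp [W.mul_def, W.inv_def]⟩⟩

omit [Fintype H] in
theorem isConj_W_iff {a b c d : H} (h : IsConj (⟨a, b, false⟩ : W H) ⟨c, d, false⟩) :
    (IsConj a c ∧ IsConj b d) ∨ (IsConj b c ∧ IsConj a d) := by
  obtain ⟨⟨u, v, _ | _⟩, h⟩ := isConj_iff.1 h
  · simp only [W.mul_def, W.inv_def, W.mk.injEq, Bool.false_eq_true, if_false, Bool.bne_false]
      at h
    exact Or.inl ⟨isConj_iff.2 ⟨u, h.1⟩, isConj_iff.2 ⟨v, h.2.1⟩⟩
  · simp only [W.mul_def, W.inv_def, W.mk.injEq, if_true, Bool.bne_false] at h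
    exact Or.inr ⟨isConj_iff.2 ⟨u, h.1⟩, isConj_iff.2 ⟨v, h.2.1⟩⟩

omit [Fintype H] in
theorem Det.wr {F : Set (H → ℂ)} {a b : H} (ha : Det F a) (hb : Det F b) (hab : ¬ IsConj a b) :
    Det (wrF F) ⟨a, b, false⟩ := by
  obtain ⟨f, hf, f1, f2⟩ := ha
  obtain ⟨g, hg, g1, g2⟩ := hb
  refine ⟨Ind f g, Ind_mem_span hf hg, ?_, ?_⟩
  · have : f b⁻¹ = 0 := by
      by_contra h; exact hab (f2 b h)
    simp [Ind, W.inv_def, this, f1, g1]
  · rintro ⟨c, d, _ | _⟩ h
    · simp only [Ind, W.inv_def, Bool.false_eq_true, if_false] at h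
      by_cases h1 : f c⁻¹ * g d⁻¹ = 0
      · rw [h1, zero_add] at h
        exact (isConj_W (f2 d (left_ne_zero_of_mul h)) (g2 c (right_ne_zero_of_mul h))).2
      · exact (isConj_W (f2 c (left_ne_zero_of_mul h1)) (g2 d (right_ne_zero_of_mul h1))).1
    · simp [Ind, W.inv_def] at h

end Pool.Agent.Lib.MP_987db6_al
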