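import Pool.Agent.Lib.MP_987db6_al.Tables
import Pool.Agent.Lib.MP_987db6_al.Wreath

namespace Pool.Agent.Lib.MP_987db6_al

open QuaternionGroup SemidirectProduct

/-- primitive cube roots of unity -/
noncomputable def om (s : Bool) : ℂ := ⟨-1 / 2, (if s then 1 else -1) * (√3 / 2)⟩

theorem om_sq (s : Bool) : om s * om s = (-1 : ℤ) • (1 : ℂ) + (-1 : ℤ) • om s := by
  have h : √3 * √3 = 3 := Real.mul_self_sqrt (by norm_num)
  cases s <;> apply Complex.ext <;> simp [om] <;> nlinarith

/-- the embeddings of the Eisenstein integers -/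
noncomputable def emb (s : Bool) : R →+* ℂ :=
  (QuadraticAlgebra.lift ⟨om s, om_sq s⟩ : R →ₐ[ℤ] ℂ).toRingHom

theorem emb_apply (s : Bool) (z : R) : emb s z = z.re + z.im * om s := by
  simp [emb]

theorem emb_inj (s : Bool) : Function.Injective (emb s) := by
  rw [injective_iff_map_eq_zero]
  intro z h
  rw [emb_apply] at h
  have h1 := congrArg Complex.re h
  have h2 := congrArg Complex.im h
  have h3 : √3 ≠ 0 := by positivity
  have h4 : z.im = 0 := by cases s <;> simpa [om, h3] using h2
  have h5 : z.re = 0 := by simpa [h4] using h1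
  ext <;> simp [h4, h5]

theorem emb_add (z : R) : emb true z + emb false z = ((2 * z.re - z.im : ℤ) : ℂ) := by
  rw [emb_apply, emb_apply]
  apply Complex.ext
  · simp [om]; ring
  · simp [om]

theorem isCh_of_R {G : Type} [Group G] {n : Type} [Fintype n] [DecidableEq n] (s : Bool)
    (ρ : G →* Matrix n n R) : IsCh fun g => emb s (ρ g).trace :=
  ⟨n, inferInstance, inferInstance, (emb s).mapMatrix.toMonoidHom.comp ρ, fun g => by
    simp [Matrix.trace]⟩

/-- the fifteen characters (with repetitions) -/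
noncomputable def chi (s l : Bool) (m : Fin 5) (g : K) : ℂ :=
  emb s (tt l g * (psi m g.right : R))

theorem isCh_psi (m : Fin 5) : IsCh fun u : Q => (psi m u : ℂ) := by
  by_cases h : m = 4
  · subst h
    have := isCh_of_R true r2h
    simpa [tr_r2] using this
  · exact (good_of_hom (G := Q) ⟨⟨fun u => (psi m u : ℂ), by simp [psi_one m h]⟩,
      fun u v => by simp [psi_mul m h]⟩).1

theorem good_chi (s l : Bool) (m : Fin 5) : Good (chi s l m) := by
  constructor
  · have h1 : IsCh fun g : K => emb s (tt l g) := by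
      cases l
      · simp only [tt, Bool.false_eq_true, if_false, map_one]
        exact (good_of_hom (1 : K →* ℂ)).1
      · simpa [tt, tr_rK] using isCh_of_R s rK
    have h2 := (isCh_psi m).comp (rightHom : K →* Q)
    convert h1.mul h2
    funext g; simp [chi]
  · have := congrArg (emb s) (norm_c l m)
    rw [map_sum] at this
    have hc : Fintype.card K = 216 := by decide +kernel
    rw [hc]
    simpa [ip, chi, -SemidirectProduct.inv_right, map_ofNat] using this

/-- the family on `K` -/
def F0 : Set (K → ℂ) := {χ | ∃ s l m, χ = chi s l m}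

theorem good_F0 : ∀ χ ∈ F0, Good χ := by
  rintro _ ⟨s, l, m, rfl⟩; exact good_chi s l m

theorem det_of (e : ℤ) (c : Fin 5 → ℤ) (x : K)
    (h : fz e c x⁻¹ ≠ 0 ∧ ∀ g : K, fz e c g⁻¹ ≠ 0 → ∃ h : K, h * x * h⁻¹ = g) : Det F0 x := by
  refine ⟨fun g => (fz e c g : ℂ), ?_, by simpa using h.1, fun g hg => ?_⟩
  · have : (fun g => (fz e c g : ℂ)) = ∑ m, (c m : ℂ) •
        (chi true false m + (e : ℂ) • (chi true true m + chi false true m)) := by
      funext g
      simp only [fz, Finset.sum_apply, Pi.smul_apply, Pi.add_apply, chi, tt, if_true, map_mul,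
        map_intCast, smul_eq_mul, Bool.false_eq_true, if_false, map_one, Int.cast_mul,
        Int.cast_sum, Finset.mul_sum, ← add_mul, emb_add, Int.cast_add, Int.cast_one]
      exact Finset.sum_congr rfl fun m _ => by ring
    rw [this]
    refine Submodule.sum_mem _ fun m _ => Submodule.smul_mem _ _ (Submodule.add_mem _ ?_
      (Submodule.smul_mem _ _ (Submodule.add_mem _ ?_ ?_))) <;>
      exact Submodule.subset_span ⟨_, _, _, rfl⟩
  · exact isConj_iff.2 (h.2 g (by simpa using hg))

/-- first component -/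
def x0 : W K := ⟨inr (xa 0), inr (xa 1), false⟩
/-- second component -/
def y0 : W K := ⟨inr (a 1), inr (a 2), false⟩
/-- the element -/
def xx : W (W K) := ⟨x0, y0, false⟩

theorem conj_Q {u v : Q} (h : IsConj (inr u : K) (inr v)) : ∃ c : Q, c * u * c⁻¹ = v := by
  have := (rightHom : K →* Q).map_isConj h
  simpa using this

theorem det_xx : Det (wrF (wrF F0)) xx := by
  refine Det.wr (Det.wr (det_of _ _ _ det_j) (det_of _ _ _ det_k) fun h => ?_)
    (Det.wr (det_of _ _ _ det_i) (det_of _ _ _ det_m) fun h => ?_) fun h => ?_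
  · obtain ⟨c, hc⟩ := conj_Q h; exact (not_conj c).1 hc
  · obtain ⟨c, hc⟩ := conj_Q h; exact (not_conj c).2.1 hc
  · rcases isConj_W_iff h with ⟨_, h⟩ | ⟨_, h⟩
    · obtain ⟨c, hc⟩ := conj_Q h; exact (not_conj c).2.2.1 hc
    · obtain ⟨c, hc⟩ := conj_Q h; exact (not_conj c).2.2.2 hc

end Pool.Agent.Lib.MP_987db6_al
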