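import Pool.Agent.Lib.MP_987db6_al.Sub

namespace Pool.Agent.Lib.MP_987db6_al

theorem no_inj (S : Subgroup (W (W K))) (hS : S = wrS (wrS L)) (y : S) (hy : (y : W (W K)) = xx)
    (f : {ψ : S → ℂ // IsIrr ψ ∧ ψ y ≠ 0} → {χ : W (W K) → ℂ // IsIrr χ ∧ χ xx ≠ 0})
    (hf : Function.Injective f)
    (hd : ∀ ψ, ∀ n m : ℕ, (f ψ).1 1 = (n : ℂ) → ψ.1 1 = (m : ℂ) →
      padicValNat 2 n = padicValNat 2 m) : False := by
  classical
  subst hS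
  obtain ⟨T, hT, h⟩ := exists_family
  let g : T → W (W K) → ℂ := fun ψ => (f ⟨ψ.1, (h _ ψ.2).1, (h _ ψ.2).2.2 y hy⟩).1
  have hg : Function.Injective g := fun a b e => by
    have := congrArg Subtype.val (hf (Subtype.ext e))
    exact Subtype.ext this
  have hm : ∀ ψ, g ψ ∈ cand := fun ψ => by
    obtain ⟨n, hn⟩ := (f ⟨ψ.1, (h _ ψ.2).1, (h _ ψ.2).2.2 y hy⟩).2.1.deg
    refine mem_cand (f _).2.1 (f _).2.2 n hn ?_
    rw [hd _ n 2 hn (h _ ψ.2).2.1]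
    simp
  have h1 : (Finset.univ : Finset T).card ≤ cand.card :=
    Finset.card_le_card_of_injOn g (fun ψ _ => hm ψ) hg.injOn
  have h2 := card_cand
  rw [Finset.card_univ, Fintype.card_coe, hT] at h1
  omega

theorem no_bij (S : Subgroup (W (W K))) (hS : S = wrS (wrS L))
    (h : ∀ y : S, (y : W (W K)) = xx →
      ∃ f : {χ : W (W K) → ℂ // IsIrr χ ∧ χ xx ≠ 0} ≃ {ψ : S → ℂ // IsIrr ψ ∧ ψ y ≠ 0},
        ∀ χ, ∀ n m : ℕ, χ.1 1 = (n : ℂ) → (f χ).1 1 = (m : ℂ) →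
          padicValNat 2 n = padicValNat 2 m) : False := by
  have hx : xx ∈ S := hS ▸ dat_xx.le dat_xx.mem
  obtain ⟨f, hf⟩ := h ⟨xx, hx⟩ rfl
  exact no_inj S hS ⟨xx, hx⟩ rfl f.symm f.symm.injective fun ψ n m h1 h2 =>
    hf _ n m h1 (by rwa [Equiv.apply_symm_apply])

end Pool.Agent.Lib.MP_987db6_al
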