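import Pool.Agent.Lib.MP_987db6_al.Main

namespace Pool.Agent.Lib.MP_987db6_al

open QuaternionGroup SemidirectProduct

theorem Dat.set_eq' {H : Type} [Group H] {S B : Subgroup H} {x : H} (h : Dat S B x) :
    {g : H | ((Subgroup.zpowers x).subgroupOf (Subgroup.closure {x, g})).IsSubnormal} = S := by
  have hxS : x ∈ S := h.le h.mem
  ext g
  set M := Subgroup.closure ({x, g} : Set H)
  have hxM : x ∈ M := Subgroup.subset_closure (by simp)
  have hgM : g ∈ M := Subgroup.subset_closure (by simp)
  constructor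
  · intro hg
    have key : ∀ A : Subgroup M, A.IsSubnormal → (⟨x, hxM⟩ : M) ∈ A → A ≤ S.subgroupOf M →
        ⊤ ≤ S.subgroupOf M := by
      intro A hA
      induction hA with
      | top => exact fun _ h => h
      | step A A' hle _ hN ih =>
        intro h1 h2
        refine ih (hle h1) fun k hk => h.fpf k ?_
        have := h2 ((Subgroup.normal_subgroupOf_iff hle).1 hN _ k⁻¹ h1 (A'.inv_mem hk))
        simpa [Subgroup.mem_subgroupOf] using this
    exact key _ hg (Subgroup.mem_zpowers x)
      (fun k hk => (Subgroup.zpowers_le).2 hxS hk) (Subgroup.mem_top ⟨g, hgM⟩)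
  · intro hg
    have hM : M ≤ S := (Subgroup.closure_le _).2 (by
      rintro _ (rfl | rfl)
      · exact hxS
      · exact hg)
    have l1 : (Subgroup.zpowers x).subgroupOf M ≤ (Subgroup.centralizer {x} ⊓ B).subgroupOf M :=
      fun k hk => (Subgroup.zpowers_le).2
        (show x ∈ Subgroup.centralizer {x} ⊓ B from
          ⟨Subgroup.mem_centralizer_singleton_iff.2 rfl, h.mem⟩) hk
    have l2 : (Subgroup.centralizer {x} ⊓ B).subgroupOf M ≤ B.subgroupOf M := fun k hk => hk.2
    refine Subgroup.IsSubnormal.step _ _ l1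
      (Subgroup.IsSubnormal.step _ _ l2 (Subgroup.Normal.isSubnormal ⟨?_⟩) ?_) ?_
    · exact fun a ha k => h.nor k (hM k.2) a ha
    · refine (Subgroup.normal_subgroupOf_iff l2).2 ?_
      rintro a k ⟨h1, h2⟩ hk
      exact ⟨Subgroup.mem_centralizer_singleton_iff.2
        (h.cl k hk a h2 (Subgroup.mem_centralizer_singleton_iff.1 h1)),
        B.mul_mem (B.mul_mem hk h2) (B.inv_mem hk)⟩
    · refine (Subgroup.normal_subgroupOf_iff l1).2 ?_
      rintro a k ⟨z, hz⟩ hk
      have hz' : x ^ z = (a : H) := hz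
      have : Commute (k : H) x := Subgroup.mem_centralizer_singleton_iff.1 hk.1
      refine ⟨z, ?_⟩
      show x ^ z = (k : H) * a * (k : H)⁻¹
      rw [← hz', (this.zpow_right z).eq, mul_inv_cancel_right]

theorem solv_W {H : Type} [Group H] [Group.IsSolvable H] : Group.IsSolvable (W H) := by
  let f : H × H →* W H := ⟨⟨fun p => ⟨p.1, p.2, false⟩, rfl⟩, fun _ _ => rfl⟩
  have key : ∀ s t : Bool, Multiplicative.ofAdd (if xor s t then (1 : ZMod 2) else 0) =
      Multiplicative.ofAdd (if s then (1 : ZMod 2) else 0) *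
        Multiplicative.ofAdd (if t then (1 : ZMod 2) else 0) := by decide
  let g : W H →* Multiplicative (ZMod 2) :=
    ⟨⟨fun w => Multiplicative.ofAdd (if w.s then 1 else 0), rfl⟩, fun a b => key a.s b.s⟩
  refine Group.isSolvable_of_ker_le_range f g ?_
  rintro ⟨a, b, _ | _⟩ h
  · exact ⟨(a, b), rfl⟩
  · have : Multiplicative.ofAdd (1 : ZMod 2) = 1 := h
    exact absurd this (by decide)

theorem solv_K : Group.IsSolvable K := by
  have h3 : Fact (Nat.Prime 3) := ⟨Nat.prime_three⟩
  have hE : IsPGroup 3 E := IsPGroup.of_card (n := 3) (by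
    rw [Nat.card_eq_fintype_card]; decide +kernel)
  have hQ : IsPGroup 2 Q := IsPGroup.of_card (n := 3) (by
    rw [Nat.card_eq_fintype_card]; decide +kernel)
  have := hE.isNilpotent
  have := hQ.isNilpotent
  exact Group.isSolvable_of_ker_le_range (inl : E →* K) (rightHom : K →* Q) range_inl_eq_ker_rightHom.ge

theorem solv_G : Group.IsSolvable (W (W K)) := by
  have := solv_K
  have : Group.IsSolvable (W K) := solv_W
  exact solv_W

theorem order_xx : orderOf xx = 4 := by
  have : Fact (Nat.Prime 2) := ⟨Nat.prime_two⟩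
  refine orderOf_eq_prime_pow (p := 2) (n := 1) (fun h => ?_) xx_pow
  have h1 : xx * xx = 1 := by rw [← h]; simp [pow_two]
  have h2 : (inr (xa 0) : K) * inr (xa 0) = 1 := congrArg (fun w => w.l.l) h1
  revert h2
  decide +kernel

end Pool.Agent.Lib.MP_987db6_al
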