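import Pool.Agent.Lib.MP_987db6_al.Upper

namespace Pool.Agent.Lib.MP_987db6_al

open QuaternionGroup SemidirectProduct

section general

variable {H : Type} [Group H]

/-- wreath product of a subgroup -/
def wrS (M : Subgroup H) : Subgroup (W H) where
  carrier := {w | w.l ∈ M ∧ w.r ∈ M}
  mul_mem' := by
    rintro ⟨a, b, _ | _⟩ ⟨c, d, s⟩ ⟨h1, h2⟩ ⟨h3, h4⟩
    · exact ⟨M.mul_mem h1 h3, M.mul_mem h2 h4⟩
    · exact ⟨M.mul_mem h1 h4, M.mul_mem h2 h3⟩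
  one_mem' := ⟨M.one_mem, M.one_mem⟩
  inv_mem' := by
    rintro ⟨a, b, _ | _⟩ ⟨h1, h2⟩
    · exact ⟨M.inv_mem h1, M.inv_mem h2⟩
    · exact ⟨M.inv_mem h2, M.inv_mem h1⟩

/-- base group of a subgroup -/
def baseS (M : Subgroup H) : Subgroup (W H) where
  carrier := {w | w.l ∈ M ∧ w.r ∈ M ∧ w.s = false}
  mul_mem' := by
    rintro ⟨a, b, s⟩ ⟨c, d, t⟩ ⟨h1, h2, rfl⟩ ⟨h3, h4, rfl⟩
    exact ⟨M.mul_mem h1 h3, M.mul_mem h2 h4, rfl⟩
  one_mem' := ⟨M.one_mem, M.one_mem, rfl⟩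
  inv_mem' := by
    rintro ⟨a, b, s⟩ ⟨h1, h2, rfl⟩
    exact ⟨M.inv_mem h1, M.inv_mem h2, rfl⟩

/-- the wreath product of a subgroup is a wreath product -/
def wrIso (M : Subgroup H) : wrS M ≃* W M where
  toFun w := ⟨⟨w.1.l, w.2.1⟩, ⟨w.1.r, w.2.2⟩, w.1.s⟩
  invFun w := ⟨⟨w.l, w.r, w.s⟩, w.l.2, w.r.2⟩
  left_inv _ := rfl
  right_inv _ := rfl
  map_mul' := by
    rintro ⟨⟨a, b, _ | _⟩, h⟩ ⟨⟨c, d, s⟩, h'⟩ <;> rfl

/-- the data determining the subnormaliser -/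
structure Dat (S B : Subgroup H) (x : H) : Prop where
  mem : x ∈ B
  le : B ≤ S
  fpf : ∀ g, g⁻¹ * x * g ∈ S → g ∈ S
  cl : ∀ b ∈ B, ∀ h ∈ B, h * x = x * h → b * h * b⁻¹ * x = x * (b * h * b⁻¹)
  nor : ∀ m ∈ S, ∀ b ∈ B, m * b * m⁻¹ ∈ B

theorem Dat.wr {S B : Subgroup H} {a b : H} (ha : Dat S B a) (hb : Dat S B b) :
    Dat (wrS S) (baseS B) ⟨a, b, false⟩ where
  mem := ⟨ha.mem, hb.mem, rfl⟩
  le := fun _ h => ⟨ha.le h.1, ha.le h.2.1⟩
  fpf := by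
    rintro ⟨u, v, _ | _⟩ ⟨h1, h2⟩
    · exact ⟨ha.fpf u h1, hb.fpf v h2⟩
    · exact ⟨ha.fpf u h2, hb.fpf v h1⟩
  cl := by
    rintro ⟨u, v, s⟩ ⟨h1, h2, rfl⟩ ⟨c, d, t⟩ ⟨h3, h4, rfl⟩ h
    exact W.ext (ha.cl u h1 c h3 (congrArg W.l h)) (hb.cl v h2 d h4 (congrArg W.r h)) rfl
  nor := by
    rintro ⟨u, v, _ | _⟩ ⟨h1, h2⟩ ⟨c, d, t⟩ ⟨h3, h4, rfl⟩
    · exact ⟨ha.nor u h1 c h3, ha.nor v h2 d h4, rfl⟩
    · exact ⟨ha.nor u h1 d h4, ha.nor v h2 c h3, rfl⟩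

theorem Dat.set_eq {S B : Subgroup H} {x : H} (h : Dat S B x) :
    {g : H | ∃ n : ℕ, ∃ c : ℕ → Subgroup H,
      c 0 = Subgroup.zpowers x ∧ c n = Subgroup.zpowers x ⊔ Subgroup.zpowers g ∧
      ∀ i < n, c i ≤ c (i + 1) ∧ ((c i).subgroupOf (c (i + 1))).Normal} = S := by
  have hxS : Subgroup.zpowers x ≤ S := (Subgroup.zpowers_le).2 (h.le h.mem)
  ext g
  constructor
  · rintro ⟨n, c, h0, hn, hc⟩
    have key : ∀ i ≤ n, x ∈ c i ∧ c i ≤ S := by
      intro i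
      induction i with
      | zero => intro _; rw [h0]; exact ⟨Subgroup.mem_zpowers x, hxS⟩
      | succ i ih =>
        intro hi
        obtain ⟨h1, h2⟩ := ih (by omega)
        obtain ⟨h3, h4⟩ := hc i (by omega)
        refine ⟨h3 h1, fun k hk => h.fpf k (h2 ?_)⟩
        have := (Subgroup.normal_subgroupOf_iff h3).1 h4 x k⁻¹ h1 ((c (i + 1)).inv_mem hk)
        simpa using this
    apply (key n le_rfl).2
    rw [hn]
    exact Subgroup.mem_sup_right (Subgroup.mem_zpowers g)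
  · intro hg
    have hM : Subgroup.zpowers x ⊔ Subgroup.zpowers g ≤ S :=
      sup_le hxS ((Subgroup.zpowers_le).2 hg)
    set M := Subgroup.zpowers x ⊔ Subgroup.zpowers g
    have hxM : x ∈ M := Subgroup.mem_sup_left (Subgroup.mem_zpowers x)
    refine ⟨3, fun i => if i = 0 then Subgroup.zpowers x else if i = 1 then
      Subgroup.centralizer {x} ⊓ (B ⊓ M) else if i = 2 then B ⊓ M else M, rfl, rfl, ?_⟩
    intro i hi
    have hcases : i = 0 ∨ i = 1 ∨ i = 2 := by omega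
    rcases hcases with rfl | rfl | rfl
    · have l : Subgroup.zpowers x ≤ Subgroup.centralizer {x} ⊓ (B ⊓ M) :=
        (Subgroup.zpowers_le).2 ⟨Subgroup.mem_centralizer_singleton_iff.2 rfl, h.mem, hxM⟩
      refine ⟨l, (Subgroup.normal_subgroupOf_iff l).2 ?_⟩
      rintro _ k ⟨z, rfl⟩ hk
      have : Commute k x := Subgroup.mem_centralizer_singleton_iff.1 hk.1
      rw [(this.zpow_right z).eq, mul_inv_cancel_right]
      exact ⟨z, rfl⟩
    · have l : Subgroup.centralizer {x} ⊓ (B ⊓ M) ≤ B ⊓ M := inf_le_right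
      refine ⟨l, (Subgroup.normal_subgroupOf_iff l).2 ?_⟩
      rintro a k ⟨h1, h2⟩ hk
      exact ⟨Subgroup.mem_centralizer_singleton_iff.2
        (h.cl k hk.1 a h2.1 (Subgroup.mem_centralizer_singleton_iff.1 h1)),
        (B ⊓ M).mul_mem ((B ⊓ M).mul_mem hk h2) ((B ⊓ M).inv_mem hk)⟩
    · have l : B ⊓ M ≤ M := inf_le_right
      refine ⟨l, (Subgroup.normal_subgroupOf_iff l).2 ?_⟩
      rintro a k ⟨h1, h2⟩ hk
      exact ⟨h.nor k (hM hk) a h1, M.mul_mem (M.mul_mem hk h2) (M.inv_mem hk)⟩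

end general

theorem dat_L (u : Q) (hu : u ≠ 1) : Dat L L (inr u) where
  mem := ⟨rfl, rfl⟩
  le := le_rfl
  fpf := L_fpf u hu
  cl := L_cl2 u
  nor := fun _ h _ h' => L.mul_mem (L.mul_mem h h') (L.inv_mem h)

theorem dat_xx : Dat (wrS (wrS L)) (baseS (baseS L)) xx :=
  Dat.wr (Dat.wr (dat_L _ (by decide)) (dat_L _ (by decide)))
    (Dat.wr (dat_L _ (by decide)) (dat_L _ (by decide)))

/-- linear characters of `L` -/
noncomputable def mu (c : ZMod 3) (m : Fin 4) (k : K) : ℂ :=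
  emb true (wp (c * k.left.c) * (psi m.castSucc k.right : R))

theorem mu_mul (c : ZMod 3) (m : Fin 4) {x y : K} (hx : x ∈ L) (hy : y ∈ L) :
    mu c m (x * y) = mu c m x * mu c m y := by
  have hm : m.castSucc ≠ 4 := (Fin.castSucc_lt_last m).ne
  simp only [mu, L_c x hx y hy, mul_add, wp_add, mul_right, psi_mul _ hm, ← map_mul, Int.cast_mul]
  congr 1; ring

theorem mu_inr (c : ZMod 3) (m : Fin 4) (u : Q) : mu c m (inr u) = psi m.castSucc u := by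
  have : (inr u : K).left.c = 0 := rfl
  have h1 : wp 0 = 1 := by decide
  rw [mu, this, mul_zero, h1, one_mul, map_intCast, right_inr]

/-- linear characters of the wreath product of `L` -/
noncomputable def lam (p : ZMod 3 × Fin 4 × Bool) : wrS L →* ℂ where
  toFun g := mu p.1 p.2.1 g.1.l * mu p.1 p.2.1 g.1.r * (if g.1.s ∧ p.2.2 then -1 else 1)
  map_one' := by
    have : mu p.1 p.2.1 1 = 1 := by
      have := mu_inr p.1 p.2.1 1
      rw [map_one, psi_one _ (Fin.castSucc_lt_last _).ne] at this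
      simpa using this
    simp [this]
  map_mul' := by
    rintro ⟨⟨a, b, s⟩, h1, h2⟩ ⟨⟨c, d, t⟩, h3, h4⟩
    obtain ⟨p1, p2, e⟩ := p
    cases s <;> cases t <;> cases e <;>
      simp [W.mul_def, mu_mul _ _ h1 h3, mu_mul _ _ h1 h4, mu_mul _ _ h2 h3, mu_mul _ _ h2 h4] <;>
      ring

theorem lam_inj : Function.Injective fun p => (lam p : wrS L → ℂ) := by
  rintro ⟨c, m, e⟩ ⟨c', m', e'⟩ h
  have h1 : ∀ c m, mu c m 1 = 1 := fun c m => by
    have := mu_inr c m 1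
    rw [map_one, psi_one _ (Fin.castSucc_lt_last _).ne] at this
    simpa using this
  have hk : ∀ k ∈ L, mu c m k = mu c' m' k := fun k hk => by
    simpa [lam, h1] using congrFun h ⟨⟨k, 1, false⟩, hk, L.one_mem⟩
  have he : e = e' := by
    have := congrFun h ⟨⟨1, 1, true⟩, L.one_mem, L.one_mem⟩
    cases e <;> cases e' <;> simp [lam, h1] at this ⊢ <;> norm_num at this
  have key : ∀ (c c' : ZMod 3) (m m' : Fin 4),
      (∀ k ∈ L, wp (c * k.left.c) * (psi m.castSucc k.right : R) =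
        wp (c' * k.left.c) * (psi m'.castSucc k.right : R)) → c = c' ∧ m = m' := by
    decide +kernel
  obtain ⟨rfl, rfl⟩ := key c c' m m' fun k hkL => emb_inj true (hk k hkL)
  rw [he]

theorem lam_x0 (p : ZMod 3 × Fin 4 × Bool) (g : wrS L) (hg : g.1 = x0 ∨ g.1 = y0) :
    lam p g = psi p.2.1.castSucc (a 1) := by
  have : ∀ m : Fin 4, psi m.castSucc (xa 0) * psi m.castSucc (xa 1) = psi m.castSucc (a 1) ∧
      psi m.castSucc (a 1) * psi m.castSucc (a 2) = psi m.castSucc (a 1) := by decide +kernel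
  obtain ⟨g, h⟩ := g
  rcases hg with rfl | rfl
  · simp [lam, x0, mu_inr, ← Int.cast_mul, (this _).1]
  · simp [lam, y0, mu_inr, ← Int.cast_mul, (this _).2]

theorem exists_family : ∃ T : Finset (wrS (wrS L) → ℂ), T.card = 276 ∧
    ∀ ψ ∈ T, IsIrr ψ ∧ ψ 1 = (2 : ℕ) ∧ ∀ y : wrS (wrS L), y.1 = xx → ψ y ≠ 0 := by
  classical
  have hG : ∀ p, Good (lam p : wrS L → ℂ) := fun p => good_of_hom _
  refine ⟨(pairs fun p => (lam p : wrS L → ℂ)).image (· ∘ wrIso (wrS L)), ?_, ?_⟩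
  · rw [Finset.card_image_of_injective _ (wrIso (wrS L)).surjective.injective_comp_right,
      card_pairs _ hG lam_inj]
    decide
  · intro ψ hψ
    obtain ⟨χ, hχ, rfl⟩ := Finset.mem_image.1 hψ
    obtain ⟨i, j, hij, rfl⟩ := (mem_pairs _ _).1 hχ
    refine ⟨(((hG i).ind (hG j) (lam_inj.ne hij)).comp _).isIrr, ?_, ?_⟩
    · simp [Ind]; norm_num
    · rintro ⟨_, hy⟩ rfl
      have h0 : ∀ m : Fin 4, psi m.castSucc (a 1) ≠ 0 := by decide +kernel
      have e : (Ind (lam i) (lam j) ∘ wrIso (wrS L)) ⟨xx, hy⟩ =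
          lam i ⟨x0, hy.1⟩ * lam j ⟨y0, hy.2⟩ + lam i ⟨y0, hy.2⟩ * lam j ⟨x0, hy.1⟩ := rfl
      rw [e, lam_x0 i _ (Or.inl rfl), lam_x0 j _ (Or.inr rfl), lam_x0 i _ (Or.inr rfl),
        lam_x0 j _ (Or.inl rfl), ← two_mul]
      exact mul_ne_zero two_ne_zero
        (mul_ne_zero (Int.cast_ne_zero.2 (h0 _)) (Int.cast_ne_zero.2 (h0 _)))

theorem xx_pow : xx ^ (2 ^ 2) = 1 := by
  have h : ∀ u : Q, (inr u : K) * inr u * (inr u * inr u) = 1 := by decide +kernel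
  have : xx ^ (2 ^ 2) = xx * xx * (xx * xx) := by
    rw [← pow_two, ← pow_two, ← pow_mul]; rfl
  rw [this]
  exact W.ext (W.ext (h _) (h _) rfl) (W.ext (h _) (h _) rfl) rfl

end Pool.Agent.Lib.MP_987db6_al
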