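import Pool.Agent.Lib.MP_987db6_al.T3Wr

namespace Pool.Agent.Lib.MP_987db6_al

open Finset

variable {G : Type} [Group G]

/-- fixed points on a set minus fixed points on a quotient -/
def fx {X : Type} [Fintype X] [DecidableEq X] (a s : X → X) : ℤ :=
  ∑ x, ((if a x = x then 1 else 0) - if a (s x) = x then 1 else 0)

theorem isCh_perm {X : Type} [Fintype X] [DecidableEq X] (A : G → X → X) (s : X → X)
    (h1 : ∀ x, A 1 x = x) (hm : ∀ g h x, A (g * h) x = A g (A h x))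
    (hs : ∀ g x, s (A g (s x)) = s (A g x)) : IsCh fun g => (fx (A g) s : ℂ) := by
  let F : G → X → X → ℂ := fun g x y => (if A g y = x then 1 else 0) - if A g (s y) = x then 1 else 0
  have e : ∀ f : X → ℂ, (∀ x, s x = x → f x = 0) → ∑ x : {x // s x ≠ x}, f x.1 = ∑ x, f x :=
    fun f hf => by
      rw [← sum_subtype (univ.filter fun x => s x ≠ x) (by simp) f, sum_filter]
      exact sum_congr rfl fun x _ => by by_cases h : s x = x <;> simp [h, hf]
  let R : G → Matrix {x // s x ≠ x} {x // s x ≠ x} ℂ := fun g => Matrix.of fun x y => F g x.1 y.1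
  refine ⟨_, inferInstance, inferInstance, ⟨⟨R, ?_⟩, fun g h => ?_⟩, fun g => ?_⟩
  · ext ⟨x, hx⟩ ⟨y, hy⟩
    have : x ≠ s y := fun h => hx (by simpa [h1, ← h] using hs 1 y)
    simp [R, F, h1, this, Matrix.one_apply, eq_comm (a := y), eq_comm (a := s y)]
  · ext ⟨x, hx⟩ ⟨y, hy⟩
    simp only [R, Matrix.of_apply, Matrix.mul_apply]
    rw [e (fun z => F g x z * F h z y) fun z hz => by simp [F, hz]]
    simp [F, mul_sub, hm, hs]
  · simp only [R, Matrix.trace, Matrix.diag_apply, Matrix.of_apply, MonoidHom.coe_mk,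
      OneHom.coe_mk]
    rw [e (fun z => F g z z) fun z hz => by simp [F, hz]]
    simp [fx, F]

theorem isCh_one [Fintype G] : IsCh fun _ : G => ((1 : ℤ) : ℂ) := by
  rw [Int.cast_one]
  exact (good_of_hom (1 : G →* ℂ)).1

theorem Good.mul_hom [Fintype G] {χ : G → ℂ} (h : Good χ) (μ : G →* ℂ) : Good (χ * ⇑μ) := by
  refine ⟨h.1.mul (good_of_hom μ).1, ?_⟩
  rw [← h.2, ip, ip]
  refine sum_congr rfl fun g _ => ?_
  have : μ g * μ g⁻¹ = 1 := by rw [← map_mul]; simp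
  simp only [Pi.mul_apply]
  linear_combination χ g * χ g⁻¹ * this

/-- twisting by a linear character of order three -/
noncomputable def tw (a : G → ℤ) (κ : G → ZMod 3) (r : ZMod 3) (g : G) : ℂ :=
  emb true (a g * wp (r * κ g))

theorem good_tw [Fintype G] {a : G → ℤ} (h : IsCh fun g => (a g : ℂ))
    (hn : ∑ g, a g * a g⁻¹ = Fintype.card G) {κ : G → ZMod 3}
    (hκ : ∀ g h, κ (g * h) = κ g + κ h) (r : ZMod 3) : Good (tw a κ r) := by
  have h1 : κ 1 = 0 := by simpa using hκ 1 1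
  have h2 : wp 0 = 1 := by decide
  have : tw a κ r = (fun g => (a g : ℂ)) * ⇑(⟨⟨fun g => emb true (wp (r * κ g)), by
      simp [h1, h2]⟩, fun g h => by simp [hκ, mul_add, wp_add]⟩ : G →* ℂ) := by
    funext g; simp [tw]
  rw [this]
  refine Good.mul_hom ⟨h, ?_⟩ _
  simpa [ip] using congrArg (Int.cast : ℤ → ℂ) hn

theorem IsIrr.comp [Fintype G] {H : Type} [Group H] [Fintype H] {χ : G → ℂ} (h : IsIrr χ)
    (f : H ≃* G) : IsIrr (χ ∘ f) := by
  obtain ⟨V, hV, rfl⟩ := h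
  refine ⟨FDRep.of (V.ρ.comp f.toMonoidHom), ?_, rfl⟩
  rw [FDRep.simple_iff_char_is_norm_one] at hV ⊢
  rw [Nat.card_congr f.toEquiv, ← hV, ← f.toEquiv.sum_comp]
  refine sum_congr rfl fun g _ => ?_
  change V.character (f g) * V.character (f g⁻¹) = _
  simp

theorem Dat.map {H : Type} [Group H] (i : H →* G) (hi : Function.Injective i) {B : Subgroup H}
    {x : H} (h : Dat ⊤ B x) (hf : ∀ g, g⁻¹ * i x * g ∈ i.range → g ∈ i.range) :
    Dat i.range (B.map i) (i x) where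
  mem := ⟨x, h.mem, rfl⟩
  le := B.map_le_range i
  fpf := hf
  cl := by
    rintro _ ⟨b, hb, rfl⟩ _ ⟨c, hc, rfl⟩ e
    simp only [← map_mul, ← map_inv] at e ⊢
    exact congrArg i (h.cl b hb c hc (hi e))
  nor := by
    rintro _ ⟨m, rfl⟩ _ ⟨b, hb, rfl⟩
    exact ⟨_, h.nor m trivial b hb, by simp⟩

/-- representatives of non-constant triples up to rotation -/
def Nf {n : ℕ} (t : Fin 3 → Fin n) : Prop := t 0 ≤ t 1 ∧ t 0 < t 2

instance {n : ℕ} (t : Fin 3 → Fin n) : Decidable (Nf t) :=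
  inferInstanceAs (Decidable (t 0 ≤ t 1 ∧ t 0 < t 2))

theorem exists_nf {n : ℕ} (t : Fin 3 → Fin n) (h : ¬ (t 0 = t 1 ∧ t 1 = t 2)) :
    ∃ d, Nf fun i => t (i + d) := by
  simp only [Fin.exists_fin_succ, Nf]
  change (t 0 ≤ t 1 ∧ t 0 < t 2) ∨ (t 1 ≤ t 2 ∧ t 1 < t 0) ∨ (t 2 ≤ t 0 ∧ t 2 < t 1) ∨ _
  omega

theorem ind3_inj [Fintype G] {n : ℕ} {c : Fin n → G → ℂ} (h : ∀ m, Good (c m))
    (hc : Function.Injective c) {t u : Fin 3 → Fin n} (ht : Nf t) (hu : Nf u)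
    (e : (Ind3 fun i => c (t i)) = Ind3 fun i => c (u i)) : t = u := by
  have h1 := (good_ind3 (χ := fun i => c (t i)) (fun _ => h _) fun q =>
    ht.2.ne (hc (q.1.trans q.2))).2
  nth_rewrite 2 [e] at h1
  rw [ip_Ind3] at h1
  obtain ⟨j, -, hj⟩ := exists_ne_zero_of_sum_ne_zero (h1 ▸ Nat.cast_ne_zero.2 Fintype.card_ne_zero)
  obtain ⟨k, -, hk⟩ := exists_ne_zero_of_sum_ne_zero hj
  have q : ∀ i, t (i - j) = u (i - k) := fun i => hc (by
    by_contra h2
    exact hk (prod_eq_zero (mem_univ i) ((h _).isIrr.ip_eq_zero (h _).isIrr h2)))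
  have a := q 0
  have b := q 1
  have d := q 2
  obtain ⟨_, _⟩ := ht
  obtain ⟨_, _⟩ := hu
  have : t 0 = u 0 ∧ t 1 = u 1 ∧ t 2 = u 2 := by
    fin_cases j <;> fin_cases k <;>
      simp [show (-1 : Fin 3) = 2 by decide, show (-2 : Fin 3) = 1 by decide] at a b d <;> omega
  funext i
  fin_cases i
  exacts [this.1, this.2.1, this.2.2]

/-- value of an induced character -/
def vl {ι : Type} (v : ι → Fin 3 → R) (t : Fin 3 → ι) : R := ∑ j, ∏ i, v (t i) (i + j)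

omit [Group G] in
theorem ind3_val {ι : Type} {c : ι → G → ℂ} {x : Fin 3 → G} {v : ι → Fin 3 → R}
    (h : ∀ m i, c m (x i) = emb true (v m i)) (t : Fin 3 → ι) :
    Ind3 (fun i => c (t i)) ⟨x, 0⟩ = emb true (vl v t) := by
  simp [Ind3, vl, h]

theorem ind3_one {ι : Type} {c : ι → G → ℂ} {d : ι → ℕ} (h : ∀ m, c m 1 = d m) (t : Fin 3 → ι) :
    Ind3 (fun i => c (t i)) 1 = (3 * ∏ i, d (t i) : ℕ) := by
  simp [Ind3, h]

end Pool.Agent.Lib.MP_987db6_al
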