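import Pool.Agent.Lib.MP_987db6_al.T3G

namespace Pool.Agent.Lib.MP_987db6_al

open Finset

/-- the field with eight elements -/
@[ext] structure F8 where
  v : Fin 8
  deriving DecidableEq, Fintype

instance : Add F8 := ⟨fun a b => ⟨Fin.ofNat 8 (Nat.xor a.v.val b.v.val)⟩⟩
instance : Mul F8 := ⟨fun a b => ⟨Fin.ofNat 8 (Nat.shiftRight
  2821848294356612419217921029917578219971947684264937521152 (Nat.add (Nat.mul 24 a.v.val) (Nat.mul 3 b.v.val)))⟩⟩
instance : Neg F8 := ⟨fun a => a⟩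
instance : Zero F8 := ⟨⟨0⟩⟩
instance : One F8 := ⟨⟨1⟩⟩

instance : CommRing F8 := CommRing.ofMinimalAxioms (by decide +kernel) (by decide +kernel)
  (by decide +kernel) (by decide +kernel) (by decide +kernel) (by decide +kernel)
  (by decide +kernel)

/-- inverse -/
def F8.iv (a : F8) : F8 := ⟨Fin.ofNat 8 (Nat.shiftRight 9272648 (Nat.mul 3 a.v.val))⟩

/-- powers of the Frobenius automorphism -/
def fr (k : ZMod 3) (t : F8) : F8 := ⟨Fin.ofNat 8 (Nat.shiftRight
  3277722179257272813192 (Nat.add (Nat.mul 24 (k : Fin 3).val) (Nat.mul 3 t.v.val)))⟩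

theorem fr_add : ∀ k s t, fr k (s + t) = fr k s + fr k t := by decide +kernel
theorem F8.two : (2 : F8) = 0 := by decide +kernel
theorem fr_mul : ∀ k s t, fr k (s * t) = fr k s * fr k t := by decide +kernel
theorem fr_fr : ∀ k l t, fr (k + l) t = fr k (fr l t) := by decide +kernel
theorem fr_one : ∀ k, fr k 1 = 1 := by decide +kernel
theorem fr_zero : ∀ k, fr k 0 = 0 := by decide +kernel
theorem fr_id : ∀ t, fr 0 t = t := by decide +kernel
theorem fr_inj : ∀ k s t, fr k s = fr k t ↔ s = t := by decide +kernel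
theorem fr_iv : ∀ k t, fr k t.iv = (fr k t).iv := by decide +kernel
theorem iv_mul : ∀ a d t : F8, a * d = 1 → (d * t).iv = a * t.iv := by decide +kernel
theorem mul_iv : ∀ t : F8, t ≠ 0 → t * t.iv = 1 := by decide +kernel
theorem F8.add_self (t : F8) : t + t = 0 := by linear_combination t * F8.two

/-- semilinear maps -/
@[ext] structure K0 where
  a : F8
  b : F8
  c : F8
  d : F8
  k : ZMod 3
  deriving DecidableEq

/-- coordinates -/
def K0.eqv : Fin 8 × Fin 8 × Fin 8 × Fin 8 × Fin 3 ≃ K0 where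
  toFun p := ⟨⟨p.1⟩, ⟨p.2.1⟩, ⟨p.2.2.1⟩, ⟨p.2.2.2.1⟩, p.2.2.2.2⟩
  invFun g := (g.a.v, g.b.v, g.c.v, g.d.v, g.k)

instance : Fintype K0 := Fintype.ofEquiv _ K0.eqv

/-- composition -/
def K0.mul (g h : K0) : K0 :=
  ⟨g.a * fr g.k h.a + g.b * fr g.k h.c, g.a * fr g.k h.b + g.b * fr g.k h.d,
    g.c * fr g.k h.a + g.d * fr g.k h.c, g.c * fr g.k h.b + g.d * fr g.k h.d, g.k + h.k⟩

/-- the group of order 1512 -/
def K3 : Type := {g : K0 // g.a * g.d + g.b * g.c = 1}

instance : DecidableEq K3 := inferInstanceAs (DecidableEq {g : K0 // g.a * g.d + g.b * g.c = 1})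
instance : Fintype K3 := inferInstanceAs (Fintype {g : K0 // g.a * g.d + g.b * g.c = 1})

instance : Mul K3 := ⟨fun g h => ⟨g.1.mul h.1, by
  have h1 := congrArg (fr g.1.k) h.2
  rw [fr_add, fr_mul, fr_mul, fr_one] at h1
  simp only [K0.mul]
  linear_combination (g.1.a * g.1.d + g.1.b * g.1.c) * h1 + g.2 +
    (g.1.a * g.1.c * fr g.1.k h.1.a * fr g.1.k h.1.b +
      g.1.b * g.1.d * fr g.1.k h.1.c * fr g.1.k h.1.d) * F8.two⟩⟩
instance : One K3 := ⟨⟨⟨1, 0, 0, 1, 0⟩, by decide⟩⟩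

/-- inverse -/
def K0.iv (g : K0) : K0 := ⟨fr (-g.k) g.d, fr (-g.k) g.b, fr (-g.k) g.c, fr (-g.k) g.a, -g.k⟩

instance : Inv K3 := ⟨fun g => ⟨g.1.iv, by
    simp only [K0.iv]
    rw [← fr_mul, ← fr_mul, ← fr_add, mul_comm g.1.d, g.2, fr_one]⟩⟩

theorem K3.all {P : K3 → Prop} (h : ∀ a b c d : Fin 8, ∀ e : (⟨a⟩ * ⟨d⟩ + ⟨b⟩ * ⟨c⟩ : F8) = 1,
    ∀ k : Fin 3, P ⟨⟨⟨a⟩, ⟨b⟩, ⟨c⟩, ⟨d⟩, k⟩, e⟩) (g : K3) : P g :=
  h g.1.a.v g.1.b.v g.1.c.v g.1.d.v g.2 g.1.k

theorem K3.mul_val (g h : K3) : (g * h).1 = g.1.mul h.1 := rfl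

instance : Group K3 := Group.ofLeftAxioms
  (fun x y z => Subtype.ext (by
    change (x.1.mul y.1).mul z.1 = x.1.mul (y.1.mul z.1)
    simp only [K0.mul, fr_add, fr_mul, fr_fr, K0.mk.injEq]
    refine ⟨?_, ?_, ?_, ?_, ?_⟩ <;> ring))
  (fun x => Subtype.ext (by
    change K0.mul ⟨1, 0, 0, 1, 0⟩ x.1 = x.1
    simp [K0.mul, fr_id]))
  (fun x => Subtype.ext (by
    change x.1.iv.mul x.1 = ⟨1, 0, 0, 1, 0⟩
    have h := x.2
    simp only [K0.mul, K0.iv, ← fr_mul, ← fr_add, K0.mk.injEq, neg_add_cancel, and_true]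
    refine ⟨?_, ?_, ?_, ?_⟩
    · rw [mul_comm, h, fr_one]
    · rw [mul_comm, F8.add_self, fr_zero]
    · rw [mul_comm, F8.add_self, fr_zero]
    · rw [mul_comm, add_comm, h, fr_one]))

theorem sum_K3 {M : Type} [AddCommMonoid M] (F : K0 → M) : ∑ g : K3, F g.1 =
    ∑ a : Fin 8, ∑ b : Fin 8, ∑ c : Fin 8, ∑ d : Fin 8,
      if (⟨a⟩ * ⟨d⟩ + ⟨b⟩ * ⟨c⟩ : F8) = 1 then ∑ k : Fin 3, F ⟨⟨a⟩, ⟨b⟩, ⟨c⟩, ⟨d⟩, k⟩ else 0 := by
  have h := sum_subtype (p := fun g : K0 => g.a * g.d + g.b * g.c = 1)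
    (F := inferInstanceAs (Fintype K3)) (univ.filter fun g : K0 => g.a * g.d + g.b * g.c = 1) (by simp) F
  rw [show ∑ g : K3, F g.1 = _ from h.symm, sum_filter, ← K0.eqv.sum_comp]
  simp only [Fintype.sum_prod_type]
  refine sum_congr rfl fun a _ => sum_congr rfl fun b _ => sum_congr rfl fun c _ =>
    sum_congr rfl fun d _ => ?_
  change (∑ k : Fin 3, if (⟨a⟩ * ⟨d⟩ + ⟨b⟩ * ⟨c⟩ : F8) = 1 then F ⟨⟨a⟩, ⟨b⟩, ⟨c⟩, ⟨d⟩, k⟩ else 0) = _
  split_ifs <;> simp

theorem card_K3 : Fintype.card K3 = 1512 := by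
  rw [Fintype.card_eq_sum_ones]
  exact (sum_K3 fun _ => 1).trans (by decide +kernel)

/-- transvections -/
def uu (t : F8) : K3 := ⟨⟨1, t, 0, 1, 0⟩, by simp⟩
/-- field automorphism -/
def ph : K3 := ⟨⟨1, 0, 0, 1, 1⟩, by decide⟩
/-- Weyl element -/
def ww : K3 := ⟨⟨0, 1, 1, 0, 0⟩, by decide⟩
/-- central element of the Sylow subgroup -/
def zz : K3 := ⟨⟨0, 1, 1, 1, 0⟩, by decide⟩

theorem bruhat (g : K3) (h : g.1.c ≠ 0) : ∃ s, ∃ b : K3, b.1.c = 0 ∧ g = uu s * (ww * b) := by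
  have h1 : ww * ww = 1 := by decide +kernel
  have h2 : ∀ s, uu s * uu s = 1 := by decide +kernel
  refine ⟨g.1.a * g.1.c.iv, ww * (uu (g.1.a * g.1.c.iv) * g), ?_, ?_⟩
  · simp only [K3.mul_val, K0.mul, ww, uu, fr_id]
    linear_combination g.1.a * mul_iv _ h + g.1.a * F8.two
  · rw [← mul_assoc ww, h1, one_mul, ← mul_assoc, h2, one_mul]

theorem mul_of_bruhat {M : Type} [Monoid M] (R : K3 → M)
    (h1 : ∀ b g : K3, b.1.c = 0 → R (b * g) = R b * R g)
    (h2 : ∀ b : K3, b.1.c = 0 → R (ww * b) = R ww * R b)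
    (h3 : ∀ s, R (ww * uu s * ww) = R ww * R (uu s) * R ww) (g h : K3) :
    R (g * h) = R g * R h := by
  have h4 : ∀ g b : K3, b.1.c = 0 → R (g * b) = R g * R b := fun g b hb => by
    by_cases hg : g.1.c = 0
    · exact h1 g b hg
    · obtain ⟨s, b', hb', rfl⟩ := bruhat g hg
      have : (b' * b).1.c = 0 := by simp [K3.mul_val, K0.mul, hb, hb', fr_zero]
      rw [mul_assoc, mul_assoc, h1 _ _ rfl, h2 _ this, h1 _ _ hb', h1 _ _ rfl, h2 _ hb',
        mul_assoc, mul_assoc]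
  have h5 : ∀ g : K3, R (ww * g) = R ww * R g := fun g => by
    by_cases hg : g.1.c = 0
    · exact h2 g hg
    · obtain ⟨s, b, hb, rfl⟩ := bruhat g hg
      rw [← mul_assoc, ← mul_assoc, h4 _ _ hb, h3, h1 _ _ rfl, h2 _ hb]
      simp only [mul_assoc]
  by_cases hg : g.1.c = 0
  · exact h1 g h hg
  · obtain ⟨s, b, hb, rfl⟩ := bruhat g hg
    rw [mul_assoc, mul_assoc, h1 _ _ rfl, h5, h1 _ _ hb, h1 _ _ rfl, h5, mul_assoc, mul_assoc]

/-- additive character -/
def ps (t : F8) : ℤ := if t.v.val % 2 = 0 then 1 else -1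
/-- twice the Bessel function -/
def jj (t : F8) : ℤ := if t.v.val = 1 then 1 else if t.v.val % 2 = 0 then -1 else 0
/-- the non-zero elements -/
def nz (i : Fin 7) : F8 := ⟨i.succ⟩

theorem ps_add : ∀ s t, ps (s + t) = ps s * ps t := by decide +kernel
theorem ps_fr : ∀ k t, ps (fr k t) = ps t := by decide +kernel
theorem jj_fr : ∀ k t, jj (fr k t) = jj t := by decide +kernel
theorem nz_left : ∀ (k : ZMod 3) (a d : F8) (i : Fin 7), a * d = 1 →
    ∃ t, fr k (nz t) = a * a * nz i ∧ ∀ t', fr k (nz t') = a * a * nz i → t' = t := by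
  decide +kernel
theorem nz_right : ∀ (k : ZMod 3) (a d : F8) (j : Fin 7), a * d = 1 →
    ∃ t, fr k (nz j) = a * a * nz t ∧ ∀ t', fr k (nz j) = a * a * nz t' → t' = t := by
  decide +kernel

/-- twice the kernel of the cuspidal representation -/
def e7 (g : K0) (x y : F8) : ℤ :=
  if g.c = 0 then if fr g.k y = g.a * g.a * x then 2 * ps (g.a * g.b * x) else 0
  else ps ((g.a * x + g.d * fr g.k y) * g.c.iv) * jj (x * fr g.k y * (g.c.iv * g.c.iv))

theorem e7_left (b g : K3) (hb : b.1.c = 0) (x t y : F8) (ht : fr b.1.k t = b.1.a * b.1.a * x) :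
    e7 (b * g).1 x y = ps (b.1.a * b.1.b * x) * e7 g.1 t y := by
  obtain ⟨⟨a, b, c, d, k⟩, h⟩ := b
  obtain ⟨⟨a', b', c', d', k'⟩, h'⟩ := g
  simp only at hb ht h h'
  subst hb
  have had : a * d = 1 := by simpa using h
  simp only [e7, K3.mul_val, K0.mul, zero_mul, zero_add, fr_fr]
  by_cases hc : c' = 0
  · subst hc
    have h2 : fr k a' * fr k d' = 1 := by rw [← fr_mul, show a' * d' = 1 by simpa using h', fr_one]
    have e1 : a * fr k a' * (a * fr k a') * x = fr k (a' * a' * t) := by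
      simp only [fr_mul, ht]; ring
    have e2 : a * fr k a' * (a * fr k b' + b * fr k d') * x = a * b * x + fr k (a' * b' * t) := by
      simp only [fr_mul, ht]; linear_combination a * b * x * h2
    simp only [fr_zero, mul_zero, add_zero, if_true, e1, e2, fr_inj, ps_add, ps_fr]
    split_ifs <;> ring
  · have h2 : fr k c' ≠ 0 := fun h0 => hc ((fr_inj k _ _).1 (h0.trans (fr_zero k).symm))
    have h3 := mul_iv _ h2
    have h4 : d * fr k c' ≠ 0 := fun h0 => h2 (by linear_combination a * h0 - fr k c' * had)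
    have e1 : ((a * fr k a' + b * fr k c') * x + d * fr k d' * fr k (fr k' y)) *
        (a * (fr k c').iv) = a * b * x + fr k ((a' * t + d' * fr k' y) * c'.iv) := by
      simp only [fr_mul, fr_add, fr_iv, ht]
      linear_combination a * b * x * h3 + fr k d' * fr k (fr k' y) * (fr k c').iv * had
    have e2 : x * fr k (fr k' y) * (a * (fr k c').iv * (a * (fr k c').iv)) =
        fr k (t * fr k' y * (c'.iv * c'.iv)) := by
      simp only [fr_mul, fr_iv, ht]; ring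
    rw [if_neg h4, if_neg hc, iv_mul a d _ had, e1, e2, ps_add, ps_fr, jj_fr, mul_assoc]

theorem e7_w (b : K3) (hb : b.1.c = 0) (x t y : F8) (ht : fr b.1.k y = b.1.a * b.1.a * t) :
    e7 (ww * b).1 x y = e7 ww.1 x t * ps (b.1.a * b.1.b * t) := by
  obtain ⟨⟨a, b, c, d, k⟩, h⟩ := b
  simp only at hb ht h
  subst hb
  have had : d * a = 1 := by simpa [mul_comm] using h
  have ha : a ≠ 0 := fun h0 => by simp [h0] at had; exact absurd had (by decide)
  have hi : a.iv = d := by simpa [show F8.iv 1 = 1 by decide] using iv_mul d a 1 had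
  have e1 : b * (a * a * t) * d = a * b * t := by linear_combination a * b * t * had
  have e2 : x * (a * a * t) * (d * d) = x * t := by
    linear_combination x * t * (a * d + 1) * had
  have h1 : (1 : F8) ≠ 0 := by decide
  simp only [e7, K3.mul_val, K0.mul, ww, zero_mul, zero_add, fr_id, one_mul, add_zero, ha, h1,
    if_false, ht, hi, e1, e2, show F8.iv 1 = 1 by decide, mul_one, show ps 0 = 1 by decide]
  ring

/-- the representation of degree seven -/
noncomputable def r7 (g : K3) : Matrix (Fin 7) (Fin 7) ℂ :=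
  Matrix.of fun i j => (e7 g.1 (nz i) (nz j) : ℂ) / 2

theorem e7_www : ∀ s i j, 4 * e7 (ww * uu s * ww).1 (nz i) (nz j) =
    ∑ t, (∑ t', e7 ww.1 (nz i) (nz t') * e7 (uu s).1 (nz t') (nz t)) * e7 ww.1 (nz t) (nz j) := by
  decide +kernel

theorem r7_mul : ∀ g h, r7 (g * h) = r7 g * r7 h := by
  refine mul_of_bruhat r7 (fun b g hb => ?_) (fun b hb => ?_) fun s => ?_
  · ext i j
    obtain ⟨t, h1, h2⟩ := nz_left b.1.k b.1.a b.1.d i (by simpa [hb] using b.2)
    rw [Matrix.mul_apply, sum_eq_single t (fun t' _ h => by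
      simp [r7, e7, hb, show ¬ _ from fun h' => h (h2 t' h')]) (by simp)]
    simp only [r7, Matrix.of_apply, e7_left b g hb _ _ _ h1]
    simp only [e7, hb, h1, if_true]
    push_cast; ring
  · ext i j
    obtain ⟨t, h1, h2⟩ := nz_right b.1.k b.1.a b.1.d j (by simpa [hb] using b.2)
    rw [Matrix.mul_apply, sum_eq_single t (fun t' _ h => by
      simp [r7, e7, hb, show ¬ _ from fun h' => h (h2 t' h')]) (by simp)]
    simp only [r7, Matrix.of_apply, e7_w b hb _ _ _ h1]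
    rw [show e7 b.1 (nz t) (nz j) = 2 * ps (b.1.a * b.1.b * nz t) by simp [e7, hb, h1]]
    push_cast; ring
  · ext i j
    have h := congrArg (Int.cast : ℤ → ℂ) (e7_www s i j)
    push_cast at h
    simp only [r7, Matrix.of_apply, Matrix.mul_apply, div_mul_div_comm, ← sum_div]
    linear_combination h / 8

/-- the character of degree seven -/
def c7 (g : K0) : ℤ := (∑ i, e7 g (nz i) (nz i)) / 2

theorem isCh_c7 : IsCh fun g : K3 => (c7 g.1 : ℂ) := by
  have h1 : ∀ i j, e7 (1 : K3).1 (nz i) (nz j) = if i = j then 2 else 0 := by decide +kernel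
  have h2 : ∀ g : K3, 2 * c7 g.1 = ∑ i, e7 g.1 (nz i) (nz i) := K3.all (by decide +kernel)
  refine ⟨_, inferInstance, inferInstance, ⟨⟨r7, ?_⟩, r7_mul⟩, fun g => ?_⟩
  · ext i j
    simp only [r7, Matrix.of_apply, h1, Matrix.one_apply]
    split_ifs <;> simp
  · have h := congrArg (Int.cast : ℤ → ℂ) (h2 g)
    push_cast at h
    simp only [MonoidHom.coe_mk, OneHom.coe_mk, Matrix.trace, Matrix.diag_apply, r7,
      Matrix.of_apply, ← sum_div]
    linear_combination h / 2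

/-- the point of the projective line with given coordinates -/
def pt (u v : F8) : Option F8 := if v = 0 then none else some (u * v.iv)
/-- first coordinate -/
def cx (x : Option F8) : F8 := x.getD 1
/-- second coordinate -/
def cy (x : Option F8) : F8 := if x = none then 0 else 1

theorem pt_smul : ∀ l u v : F8, l ≠ 0 → pt (l * u) (l * v) = pt u v := by decide +kernel
theorem pt_rep : ∀ u v : F8, (u = 0 ∧ v = 0) ∨
    ∃ l, l ≠ 0 ∧ cx (pt u v) = l * u ∧ cy (pt u v) = l * v := by decide +kernel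

/-- the action on the projective line -/
def a8 (g : K0) (x : Option F8) : Option F8 :=
  pt (g.a * fr g.k (cx x) + g.b * fr g.k (cy x)) (g.c * fr g.k (cx x) + g.d * fr g.k (cy x))

theorem a8_mul (g h : K3) (x : Option F8) : a8 (g * h).1 x = a8 g.1 (a8 h.1 x) := by
  have h0 : ∀ k x, ¬ (fr k (cx x) = 0 ∧ fr k (cy x) = 0) := by decide +kernel
  rcases pt_rep (h.1.a * fr h.1.k (cx x) + h.1.b * fr h.1.k (cy x))
    (h.1.c * fr h.1.k (cx x) + h.1.d * fr h.1.k (cy x)) with ⟨h1, h2⟩ | ⟨l, hl, h1, h2⟩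
  · refine absurd ⟨?_, ?_⟩ (h0 h.1.k x)
    · linear_combination h.1.d * h1 + h.1.b * h2 - fr h.1.k (cx x) * h.2 -
        h.1.b * h.1.d * fr h.1.k (cy x) * F8.two
    · linear_combination h.1.c * h1 + h.1.a * h2 - fr h.1.k (cy x) * h.2 -
        h.1.a * h.1.c * fr h.1.k (cx x) * F8.two
  · have h3 : fr g.1.k l ≠ 0 := fun h0 => hl ((fr_inj _ _ _).1 (h0.trans (fr_zero _).symm))
    rw [a8, a8, ← pt_smul _ _ _ h3, a8, h1, h2]
    simp only [K3.mul_val, K0.mul, fr_add, fr_mul, fr_fr]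
    congr 1 <;> ring

/-- the character of degree eight -/
def c8 (g : K0) : ℤ := (∑ x, if a8 g x = x then 1 else 0) - 1

theorem isCh_c8 : IsCh fun g : K3 => (c8 g.1 : ℂ) := by
  simpa [fx, c8] using isCh_perm (fun g : K3 => a8 g.1) (fun _ => none) (by decide +kernel) a8_mul
    fun _ _ => rfl

theorem norm_c7 : ∑ g : K3, c7 g.1 * c7 g.1.iv = 1512 :=
  (sum_K3 fun g => c7 g * c7 g.iv).trans (by decide +kernel)

theorem norm_c8 : ∑ g : K3, c8 g.1 * c8 g.1.iv = 1512 :=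
  (sum_K3 fun g => c8 g * c8 g.iv).trans (by decide +kernel)

end Pool.Agent.Lib.MP_987db6_al
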