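import Pool.Agent.Lib.MP_987db6_al.T3G

namespace Pool.Agent.Lib.MP_987db6_al

open Finset

/-- the affine group of the integers modulo nine -/
@[ext] structure A9 where
  t : ZMod 9
  j : ZMod 6
  deriving DecidableEq, Fintype

/-- powers of two -/
def p2 (j : ZMod 6) : ZMod 9 := 2 ^ j.val

theorem p2_add : ∀ i j, p2 (i + j) = p2 i * p2 j := by decide +kernel

instance : Mul A9 := ⟨fun g h => ⟨g.t + p2 g.j * h.t, g.j + h.j⟩⟩
instance : One A9 := ⟨⟨0, 0⟩⟩
instance : Inv A9 := ⟨fun g => ⟨-(p2 (-g.j) * g.t), -g.j⟩⟩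

theorem A9.mul_def (g h : A9) : g * h = ⟨g.t + p2 g.j * h.t, g.j + h.j⟩ := rfl

instance : Group A9 := Group.ofLeftAxioms
  (fun x y z => by simp only [A9.mul_def, p2_add, A9.mk.injEq]; constructor <;> ring)
  (by decide +kernel) (by decide +kernel)

/-- reduction modulo three -/
def r63 (j : ZMod 6) : ZMod 3 := j.val

theorem r63_add : ∀ i j, r63 (i + j) = r63 i + r63 j := by decide +kernel

/-- the action on the integers modulo nine -/
def a9 (g : A9) (x : ZMod 9) : ZMod 9 := g.t + p2 g.j * x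

/-- the action on the integers modulo three -/
def a3 (g : A9) (x : ZMod 3) : ZMod 3 := g.t.val + (p2 g.j).val * x

/-- integral characters -/
def bz (m : Fin 4) (g : A9) : ℤ :=
  if m = 0 then 1 else if m = 1 then if g.j.val % 2 = 0 then 1 else -1
  else if m = 2 then if g.j.val % 2 = 0 then if g.t.val % 3 = 0 then 2 else -1 else 0
  else if g.j = 0 then if g.t = 0 then 6 else if g.t.val % 3 = 0 then -3 else 0 else 0

theorem isCh_bz (m : Fin 4) : IsCh fun g => (bz m g : ℂ) := by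
  fin_cases m
  · exact isCh_one
  · have : ∀ g h, bz 1 (g * h) = bz 1 g * bz 1 h := by decide +kernel
    exact (good_of_hom (G := A9) ⟨⟨fun g => (bz 1 g : ℂ), by simp [show bz 1 1 = 1 by decide]⟩,
      fun u v => by simp [this]⟩).1
  · have : ∀ g, fx (a3 g) (fun _ => 0) = bz 2 g := by decide +kernel
    simpa [this] using isCh_perm a3 (fun _ => 0) (by decide +kernel) (by decide +kernel)
      fun _ _ => rfl
  · have : ∀ g, fx (a9 g) (fun x => (x.val % 3 : ℕ)) = bz 3 g := by decide +kernel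
    simpa [this] using isCh_perm a9 (fun x => (x.val % 3 : ℕ)) (by decide +kernel)
      (fun g h x => by simp only [a9, A9.mul_def, p2_add]; ring) (by decide +kernel)

/-- the type of a character -/
def ty (m : Fin 10) : Fin 4 := ⟨m.val / 3, by omega⟩

/-- the ten irreducible characters -/
noncomputable def cN (m : Fin 10) : A9 → ℂ := tw (bz (ty m)) (fun g => r63 g.j) (m.val : ZMod 3)

/-- their values -/
def cR (m : Fin 10) (g : A9) : R := bz (ty m) g * wp ((m.val : ZMod 3) * r63 g.j)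

theorem good_cN (m : Fin 10) : Good (cN m) := by
  have : ∀ m, ∑ g, bz m g * bz m g⁻¹ = Fintype.card A9 := by decide +kernel
  exact good_tw (isCh_bz _) (this _) (fun _ _ => r63_add _ _) _

/-- the three components -/
def xN : Fin 3 → A9 := ![⟨0, 2⟩, ⟨3, 0⟩, ⟨0, 4⟩]

theorem det_xN (i : Fin 3) : Det (Set.range cN) (xN i) := by
  have : ∀ i, ∑ m, cR m (xN i) * cR m (xN i)⁻¹ ≠ 0 ∧
      ∀ g, ∑ m, cR m (xN i) * cR m g⁻¹ ≠ 0 → ∃ h, h * xN i * h⁻¹ = g := by decide +kernel
  have e : ∀ g, (∑ m, cN m (xN i) • cN m) g = emb true (∑ m, cR m (xN i) * cR m g) := fun g => by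
    simp only [Finset.sum_apply, Pi.smul_apply, smul_eq_mul, map_sum, map_mul (emb true) (cR _ _)]
    rfl
  refine ⟨∑ m, cN m (xN i) • cN m, Submodule.sum_mem _ fun m _ => Submodule.smul_mem _ _
    (Submodule.subset_span ⟨m, rfl⟩), ?_, fun g hg => isConj_iff.2 ((this i).2 g fun h => ?_)⟩
  · rw [e]
    exact (map_ne_zero_iff _ (emb_inj true)).2 (this i).1
  · rw [e, h, map_zero] at hg
    exact hg rfl

/-- degrees -/
def dN (m : Fin 10) : ℕ := if m.val < 6 then 1 else if m.val < 9 then 2 else 6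

theorem cN_one (m : Fin 10) : cN m 1 = dN m := by
  have : ∀ m, cR m 1 = (dN m : ℕ) := by decide +kernel
  exact (congrArg (emb true) (this m)).trans (map_natCast _ _)

/-- the candidates in the subnormaliser -/
def TN : Finset (Fin 3 → Fin 10) :=
  univ.filter fun t => Nf t ∧ (∀ i, t i ≠ 9) ∧ vl (fun m i => cR m (xN i)) t ≠ 0

theorem card_TN : TN.card = 78 := by decide +kernel

theorem mem_TN {ψ : W3 A9 → ℂ} (h : IsIrr ψ) (hx : ψ ⟨xN, 0⟩ ≠ 0) {n : ℕ} (hn : ψ 1 = n)
    (hv : padicValNat 3 n = 1) : ∃ t ∈ TN, ψ = Ind3 fun i => cN (t i) := by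
  have : Fact (Nat.Prime 3) := ⟨Nat.prime_three⟩
  have hc : ∀ j, j ≠ 0 → ∀ h, h * xN 0 * h⁻¹ ≠ xN j := by decide +kernel
  rcases (Det.wr3 det_xN fun j hj h => by
    obtain ⟨c, e⟩ := isConj_iff.1 h
    exact hc j hj c e).mem (good_wrF3 good_cN) h hx with ⟨t, ht, rfl⟩ | ⟨m, ε, -, rfl⟩
  · obtain ⟨d, hd⟩ := exists_nf t fun q => ht ⟨congrArg cN q.1, congrArg cN q.2⟩
    rw [← Ind3_rot _ d] at hx hn ⊢
    refine ⟨_, mem_filter.2 ⟨mem_univ _, hd, fun i hi => ?_, fun h0 => hx ?_⟩, rfl⟩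
    · rw [ind3_one cN_one, Nat.cast_inj] at hn
      have h0 : n ≠ 0 := by rintro rfl; simp at hv
      have : 3 ^ 2 ∣ n := hn ▸ mul_dvd_mul_left 3
        (dvd_trans (by rw [hi]; decide) (dvd_prod_of_mem (fun i => dN (t (i + d))) (mem_univ i)))
      rw [padicValNat_dvd_iff_le h0] at this
      omega
    · rw [ind3_val (v := fun m i => cR m (xN i)) fun _ _ => rfl, h0, map_zero]
  · have : n = dN m ^ 3 := by
      have : ((dN m ^ 3 : ℕ) : ℂ) = n := by simp [← hn, Ext3, cN_one]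
      exact_mod_cast this.symm
    rw [this, padicValNat.pow] at hv
    omega

end Pool.Agent.Lib.MP_987db6_al
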