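import Pool.Agent.Lib.MP_987db6_al.T3K
import Pool.Agent.Lib.MP_987db6_al.T3N

namespace Pool.Agent.Lib.MP_987db6_al

open Finset

/-- diagonal entries of the non-split torus -/
def ta (t : ZMod 9) : F8 := ⟨Fin.ofNat 8 (Nat.shiftRight 75850129 (Nat.mul 3 t.val))⟩
/-- off-diagonal entries of the non-split torus -/
def tb (t : ZMod 9) : F8 := ⟨Fin.ofNat 8 (Nat.shiftRight 105267888 (Nat.mul 3 t.val))⟩

/-- the embedding, in coordinates -/
def i0 (g : A9) : K0 := if g.j.val % 2 = 0 then ⟨ta g.t, tb g.t, tb g.t, ta g.t + tb g.t, r63 g.j⟩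
  else ⟨tb g.t, ta g.t, ta g.t + tb g.t, tb g.t, r63 g.j⟩

theorem i0_det : ∀ g, (i0 g).a * (i0 g).d + (i0 g).b * (i0 g).c = 1 := by decide +kernel
theorem i0_mul : ∀ g h, i0 (g * h) = (i0 g).mul (i0 h) := by decide +kernel

/-- the embedding of the affine group -/
def io : A9 →* K3 := MonoidHom.mk' (fun g => ⟨i0 g, i0_det g⟩) fun g h => Subtype.ext (i0_mul g h)

theorem io_inj : Function.Injective io := by
  have : ∀ g, i0 g = i0 1 → g = 1 := by decide +kernel
  exact (injective_iff_map_eq_one io).2 fun g h => this g (congrArg Subtype.val (h.trans io.map_one.symm))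

/-- equations of the image -/
def inN (g : K0) : Prop := (g.c = g.b ∧ g.d = g.a + g.b) ∨ (g.d = g.a ∧ g.c = g.a + g.b)

instance (g : K0) : Decidable (inN g) :=
  inferInstanceAs (Decidable ((g.c = g.b ∧ g.d = g.a + g.b) ∨ (g.d = g.a ∧ g.c = g.a + g.b)))

theorem mem_io (g : K3) : g ∈ io.range ↔ inN g.1 := by
  have h1 : ∀ h, inN (i0 h) := by decide +kernel
  have h2 : ∀ g : K3, inN g.1 → ∃ h, i0 h = g.1 := K3.all (by decide +kernel)
  exact ⟨fun ⟨h, e⟩ => e ▸ h1 h, fun h => (h2 g h).imp fun _ e => Subtype.ext e⟩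

/-- the Sylow subgroup -/
def BN : Subgroup A9 where
  carrier := {g | g.j.val % 2 = 0}
  mul_mem' := by
    have : ∀ i j : ZMod 6, i.val % 2 = 0 → j.val % 2 = 0 → (i + j).val % 2 = 0 := by decide
    exact fun {a b} => this a.j b.j
  one_mem' := rfl
  inv_mem' := by
    have : ∀ i : ZMod 6, i.val % 2 = 0 → (-i).val % 2 = 0 := by decide
    exact fun {a} => this a.j

/-- the three components -/
def xK (i : Fin 3) : K3 := io (xN i)

theorem dat_xK (i : Fin 3) : Dat io.range (BN.map io) (xK i) := by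
  have h1 : ∀ i, (xN i).j.val % 2 = 0 := by decide
  have h2 : ∀ i, ∀ b : A9, b.j.val % 2 = 0 → ∀ h : A9, h.j.val % 2 = 0 → h * xN i = xN i * h →
      b * h * b⁻¹ * xN i = xN i * (b * h * b⁻¹) := by decide +kernel
  have h3 : ∀ i j : ZMod 6, j.val % 2 = 0 → (i + j + -i).val % 2 = 0 := by decide
  have h4 : ∀ g : K3, ∀ i, inN ((g.1.iv.mul (i0 (xN i))).mul g.1) → inN g.1 :=
    K3.all (by decide +kernel)
  refine Dat.map io io_inj ⟨h1 i, le_top, fun _ _ => trivial, h2 i, fun m _ b => h3 m.j b.j⟩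
    fun g hg => (mem_io g).2 (h4 g i ((mem_io _).1 hg))

/-- integral characters -/
def az (m : Fin 9) (g : K0) : ℤ := if m.val < 3 then 1 else if m.val < 6 then c7 g else c8 g

/-- nine irreducible characters -/
noncomputable def cK (m : Fin 9) : K3 → ℂ := tw (fun g => az m g.1) (fun g => g.1.k) (m.val : ZMod 3)

theorem good_cK (m : Fin 9) : Good (cK m) := by
  refine good_tw ?_ ?_ (fun _ _ => rfl) _ <;> simp only [az] <;> split_ifs
  · exact isCh_one
  · exact isCh_c7
  · exact isCh_c8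
  · simp
  · exact norm_c7.trans (congrArg Nat.cast card_K3).symm
  · exact norm_c8.trans (congrArg Nat.cast card_K3).symm

/-- degrees -/
def dK (m : Fin 9) : ℕ := if m.val < 3 then 1 else if m.val < 6 then 7 else 8

/-- values -/
def vK (m : Fin 9) (i : Fin 3) : R :=
  (if m.val < 3 then 1 else if m.val < 6 then ![1, -2, 1] i else ![2, -1, 2] i : ℤ) *
    wp ((m.val : ZMod 3) * ![2, 0, 1] i)

theorem cK_one (m : Fin 9) : cK m 1 = dK m := by
  have : ∀ m : Fin 9, az m (1 : K3).1 * wp ((m.val : ZMod 3) * (1 : K3).1.k) = (dK m : ℕ) := by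
    decide +kernel
  exact (congrArg (emb true) (this m)).trans (map_natCast _ _)

theorem cK_x (m : Fin 9) (i : Fin 3) : cK m (xK i) = emb true (vK m i) := by
  have : ∀ (m : Fin 9) i, az m (i0 (xN i)) * wp ((m.val : ZMod 3) * (i0 (xN i)).k) = vK m i := by
    decide +kernel
  exact congrArg (emb true) (this m i)

theorem cK_inj : Function.Injective cK := fun m n h => by
  have : ∀ m n, vK m 0 = vK n 0 → vK m 1 = vK n 1 → m = n := by decide +kernel
  refine this m n (emb_inj true ?_) (emb_inj true ?_) <;> rw [← cK_x, ← cK_x, h]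

/-- characters of the big group -/
def TK : Finset (Fin 3 → Fin 9) := univ.filter fun t => Nf t ∧ vl vK t ≠ 0

theorem card_TK : TK.card = 204 := by decide +kernel

/-- the element -/
def x3 : W3 K3 := ⟨xK, 0⟩

theorem dat_x3 : Dat (wrS3 io.range) (baseS3 (BN.map io)) x3 := Dat.wr3 dat_xK

theorem order_x3 : orderOf x3 = 3 := by
  have : Fact (Nat.Prime 3) := ⟨Nat.prime_three⟩
  have h : ∀ i, xN i * xN i * xN i = 1 := by decide +kernel
  refine orderOf_eq_prime ?_ fun h => ?_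
  · rw [pow_three']
    ext i
    · simp [x3, xK, ← map_mul, h]
    · rfl
  · exact absurd (io_inj ((congrArg (fun w => W3.f w 0) h).trans io.map_one.symm)) (by decide)

theorem no_inj3 (S : Subgroup (W3 K3)) (hS : S = wrS3 io.range) (y : S) (hy : (y : W3 K3) = x3)
    (f : {χ : W3 K3 → ℂ // IsIrr χ ∧ χ x3 ≠ 0} → {ψ : S → ℂ // IsIrr ψ ∧ ψ y ≠ 0})
    (hf : Function.Injective f)
    (hd : ∀ χ, ∀ n m : ℕ, (f χ).1 1 = (n : ℂ) → χ.1 1 = (m : ℂ) →
      padicValNat 3 n = padicValNat 3 m) : False := by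
  have : Fact (Nat.Prime 3) := ⟨Nat.prime_three⟩
  subst hS
  have := Fintype.ofFinite (wrS3 io.range)
  let e := wrIso3 io.range (MonoidHom.ofInjective io_inj).symm
  have ey : e.symm ⟨xN, 0⟩ = y := Subtype.ext (hy ▸ rfl)
  have h1 : ∀ t : TK, IsIrr (Ind3 fun i => cK (t.1 i)) ∧ (Ind3 fun i => cK (t.1 i)) x3 ≠ 0 :=
    fun t => by
      obtain ⟨-, h1, h2⟩ := mem_filter.1 t.2
      refine ⟨(good_ind3 (fun _ => good_cK _) fun q => h1.2.ne (cK_inj (q.1.trans q.2))).isIrr, ?_⟩
      rw [x3, ind3_val cK_x]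
      exact (map_ne_zero_iff _ (emb_inj true)).2 h2
  have h2 : ∀ t : TK, ∃ u ∈ TN, (f ⟨_, h1 t⟩).1 ∘ e.symm = Ind3 fun i => cN (u i) := fun t => by
    obtain ⟨n, hn⟩ := (f ⟨_, h1 t⟩).2.1.deg
    refine mem_TN ((f _).2.1.comp _) (by simpa [ey] using (f _).2.2) (n := n) (by simpa using hn) ?_
    have hm : ∀ m, ¬ 3 ∣ dK m := by decide
    have h3 : ¬ 3 ∣ ∏ i, dK (t.1 i) := fun h =>
      ((Prime.dvd_finsetProd_iff Nat.prime_three.prime _).1 h).elim fun i hi => hm _ hi.2
    rw [hd _ n _ hn (ind3_one cK_one _), padicValNat.mul (by simp) (fun h => h3 (by simp [h])),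
      padicValNat.eq_zero_of_not_dvd h3]
    simp
  choose u hu h3 using h2
  have h4 : (univ : Finset TK).card ≤ TN.card := card_le_card_of_injOn u (fun t _ => hu t)
    fun a _ b _ hab => by
      have h5 := h3 a
      rw [hab, ← h3 b] at h5
      have h6 := congrArg Subtype.val (hf (Subtype.ext (e.symm.surjective.injective_comp_right h5)))
      exact Subtype.ext (ind3_inj good_cK cK_inj (mem_filter.1 a.2).2.1 (mem_filter.1 b.2).2.1 h6)
  rw [card_univ, Fintype.card_coe, card_TK, card_TN] at h4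
  omega

end Pool.Agent.Lib.MP_987db6_al
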