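import Pool.Agent.Lib.MP_987db6_al.Solv

namespace Pool.Agent.Lib.MP_987db6_al

open Finset

/-- wreath product with the group of order three -/
@[ext] structure W3 (H : Type) where
  f : Fin 3 → H
  s : Fin 3

namespace W3

variable {H : Type} [Group H]

instance : Mul (W3 H) := ⟨fun a b => ⟨fun i => a.f i * b.f (i + a.s), a.s + b.s⟩⟩
instance : One (W3 H) := ⟨⟨fun _ => 1, 0⟩⟩
instance : Inv (W3 H) := ⟨fun a => ⟨fun i => (a.f (i - a.s))⁻¹, -a.s⟩⟩

@[simp] theorem mul_f (a b : W3 H) (i : Fin 3) : (a * b).f i = a.f i * b.f (i + a.s) := rfl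
@[simp] theorem mul_s (a b : W3 H) : (a * b).s = a.s + b.s := rfl
@[simp] theorem one_f (i : Fin 3) : (1 : W3 H).f i = 1 := rfl
@[simp] theorem one_s : (1 : W3 H).s = 0 := rfl
@[simp] theorem inv_f (a : W3 H) (i : Fin 3) : a⁻¹.f i = (a.f (i - a.s))⁻¹ := rfl
@[simp] theorem inv_s (a : W3 H) : a⁻¹.s = -a.s := rfl

instance : Group (W3 H) := Group.ofLeftAxioms
  (fun a b c => by ext <;> simp [mul_assoc, add_assoc])
  (fun a => by ext <;> simp)
  (fun a => by ext <;> simp [sub_eq_add_neg])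

/-- coordinates -/
def equivProd (H : Type) : W3 H ≃ Fin 3 × (Fin 3 → H) where
  toFun a := (a.s, a.f)
  invFun p := ⟨p.2, p.1⟩

instance {H : Type} [Fintype H] : Fintype (W3 H) := Fintype.ofEquiv _ (equivProd H).symm

theorem card {H : Type} [Fintype H] : Fintype.card (W3 H) = 3 * Fintype.card H ^ 3 := by
  rw [Fintype.card_congr (equivProd H)]; simp

theorem sum_eq {H : Type} [Fintype H] (F : W3 H → ℂ) :
    ∑ w, F w = ∑ f, F ⟨f, 0⟩ + ∑ f, F ⟨f, 1⟩ + ∑ f, F ⟨f, 2⟩ := by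
  rw [← (equivProd H).symm.sum_comp, Fintype.sum_prod_type, Fin.sum_univ_three]
  rfl

end W3

variable {H : Type} [Group H]

/-- induced function -/
def Ind3 (χ : Fin 3 → H → ℂ) (w : W3 H) : ℂ :=
  if w.s = 0 then ∑ j, ∏ i, χ i (w.f (i + j)) else 0

/-- tensor extension -/
def Ext3 (ε : ℂ) (χ : H → ℂ) (w : W3 H) : ℂ :=
  ε ^ w.s.val * if w.s = 0 then ∏ i, χ (w.f i) else χ (w.f 0 * w.f w.s * w.f (w.s + w.s))

omit [Group H] in
theorem Ind3_rot (χ : Fin 3 → H → ℂ) (d : Fin 3) : Ind3 (fun i => χ (i + d)) = Ind3 χ := by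
  funext w
  simp only [Ind3]
  split_ifs
  · rw [← Equiv.sum_comp (Equiv.addRight d)]
    refine sum_congr rfl fun j _ => ?_
    rw [← Equiv.prod_comp (Equiv.addRight d) fun i => χ i (w.f (i + j))]
    simp [add_assoc, add_comm d j]
  · rfl

theorem isCh_ind3 {χ : Fin 3 → H → ℂ} (h : ∀ i, IsCh (χ i)) : IsCh (Ind3 χ) := by
  choose n _ _ ρ h using h
  let R : W3 H → Matrix (Fin 3 × ∀ i, n i) (Fin 3 × ∀ i, n i) ℂ := fun w => Matrix.of fun a b =>
    if b.1 = a.1 + w.s then ∏ i, ρ i (w.f (i + a.1)) (a.2 i) (b.2 i) else 0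
  refine ⟨_, inferInstance, inferInstance, ⟨⟨R, ?_⟩, fun v w => ?_⟩, fun w => ?_⟩
  · ext ⟨j, a⟩ ⟨k, b⟩
    simp only [R, Matrix.of_apply, W3.one_s, add_zero, W3.one_f, map_one, Matrix.one_apply,
      Prod.mk.injEq, Fintype.prod_boole, funext_iff, eq_comm (a := k)]
    split_ifs <;> simp_all
  · ext ⟨j, a⟩ ⟨k, b⟩
    simp only [R, Matrix.of_apply, Matrix.mul_apply, Fintype.sum_prod_type, W3.mul_s, W3.mul_f,
      map_mul, ite_mul, zero_mul, mul_ite, mul_zero]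
    rw [sum_eq_single (j + v.s) (fun l _ hl => by simp [hl]) (by simp)]
    simp only [if_true, add_assoc]
    split_ifs
    · rw [prod_univ_sum, Fintype.piFinset_univ]
      simp only [prod_mul_distrib]
    · simp
  · simp only [R, Ind3, h, Matrix.trace, Matrix.diag_apply, Matrix.of_apply, MonoidHom.coe_mk,
      OneHom.coe_mk, Fintype.sum_prod_type, left_eq_add]
    split_ifs
    · refine sum_congr rfl fun j _ => ?_
      rw [prod_univ_sum, Fintype.piFinset_univ]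
    · simp

theorem pow_fin3 {ε : ℂ} (hε : ε ^ 3 = 1) (s t : Fin 3) :
    ε ^ (s + t).val = ε ^ s.val * ε ^ t.val := by
  rw [← pow_add, Fin.val_add, ← pow_eq_pow_mod _ hε]

theorem sum_fun3 {n : Type} [Fintype n] (F : (Fin 3 → n) → ℂ) :
    ∑ a, F a = ∑ x, ∑ y, ∑ z, F ![x, y, z] := by
  let e : n × n × n ≃ (Fin 3 → n) := ⟨fun p => ![p.1, p.2.1, p.2.2], fun a => (a 0, a 1, a 2),
    fun _ => rfl, fun a => by funext i; fin_cases i <;> rfl⟩
  rw [← e.sum_comp]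
  simp only [Fintype.sum_prod_type]
  rfl

theorem IsCh.ext3 {χ : H → ℂ} (h : IsCh χ) {ε : ℂ} (hε : ε ^ 3 = 1) : IsCh (Ext3 ε χ) := by
  obtain ⟨n, _, _, ρ, h⟩ := h
  let R : W3 H → Matrix (Fin 3 → n) (Fin 3 → n) ℂ := fun w => Matrix.of fun a b =>
    ε ^ w.s.val * ∏ i, ρ (w.f i) (a i) (b (i + w.s))
  refine ⟨_, inferInstance, inferInstance, ⟨⟨R, ?_⟩, fun v w => ?_⟩, fun w => ?_⟩
  · ext a b
    simp [R, Matrix.one_apply, Fintype.prod_boole, funext_iff]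
  · ext a c
    simp only [R, Matrix.of_apply, Matrix.mul_apply, W3.mul_s, W3.mul_f, map_mul, pow_fin3 hε]
    rw [prod_univ_sum, Fintype.piFinset_univ, mul_sum,
      ← ((Equiv.addRight v.s).arrowCongr (Equiv.refl n)).symm.sum_comp]
    refine sum_congr rfl fun b _ => ?_
    rw [← Equiv.prod_comp (Equiv.addRight v.s) fun i => ρ (w.f i) (b i) (c (i + w.s)),
      prod_mul_distrib]
    simp only [Equiv.arrowCongr_symm, Equiv.arrowCongr_apply, Equiv.refl_symm, Equiv.coe_refl,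
      Equiv.symm_symm, Function.comp, id, Equiv.coe_addRight, add_assoc]
    ring
  · obtain ⟨f, s⟩ := w
    simp only [R, Ext3, h, Matrix.trace, Matrix.diag_apply, Matrix.of_apply, MonoidHom.coe_mk,
      OneHom.coe_mk, ← mul_sum]
    congr 1
    fin_cases s
    · simp [prod_univ_sum]
    · simp [sum_fun3, Fin.prod_univ_three, Matrix.mul_apply, sum_mul]
      refine sum_congr rfl fun x _ => ?_
      rw [sum_comm]
    · simp [sum_fun3, Fin.prod_univ_three, Matrix.mul_apply, sum_mul]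
      refine sum_congr rfl fun x _ => sum_congr rfl fun y _ => sum_congr rfl fun z _ => by ring

variable [Fintype H]

theorem ip_Ind3 (χ ψ : Fin 3 → H → ℂ) :
    ip (Ind3 χ) (Ind3 ψ) = ∑ j, ∑ k, ∏ i, ip (χ (i - j)) (ψ (i - k)) := by
  have e : ∀ (χ : Fin 3 → H → ℂ) (f : Fin 3 → H) (j : Fin 3),
      ∏ i, χ i (f (i + j)) = ∏ i, χ (i - j) (f i) := fun χ f j => by
    rw [← Equiv.prod_comp (Equiv.addRight j) fun i => χ (i - j) (f i)]; simp
  rw [ip, W3.sum_eq]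
  simp only [Ind3, W3.inv_s, neg_zero, if_true, W3.inv_f, sub_zero, e χ,
    e ψ (fun i => (_ : H)⁻¹), show (1 : Fin 3) ≠ 0 by decide, show (2 : Fin 3) ≠ 0 by decide,
    if_false, zero_mul, sum_const_zero, add_zero, sum_mul_sum, ip, prod_univ_sum,
    Fintype.piFinset_univ, prod_mul_distrib]
  rw [sum_comm]
  refine sum_congr rfl fun j _ => ?_
  rw [sum_comm]

theorem good_ind3 {χ : Fin 3 → H → ℂ} (h : ∀ i, Good (χ i))
    (hn : ¬ (χ 0 = χ 1 ∧ χ 1 = χ 2)) : Good (Ind3 χ) := by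
  refine ⟨isCh_ind3 fun i => (h i).1, ?_⟩
  have z : ∀ j k, j ≠ k → ∏ i, ip (χ (i - j)) (χ (i - k)) = 0 := fun j k hjk => by
    by_contra h0
    have h1 : ∀ i, χ (i - j) = χ (i - k) := fun i => by
      by_contra h2
      exact h0 (prod_eq_zero (mem_univ i) ((h _).isIrr.ip_eq_zero (h _).isIrr h2))
    have key : ∀ j k : Fin 3, j ≠ k → (∀ i : Fin 3, k + i - j = i + 1 ∧ k + i - k = i) ∨
      ∀ i : Fin 3, k + i + 1 - j = i ∧ k + i + 1 - k = i + 1 := by decide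
    apply hn
    rcases key j k hjk with q | q
    · have a := fun i => h1 (k + i)
      simp only [(q _).1, (q _).2] at a
      exact ⟨(a 0).symm, (a 1).symm⟩
    · have a := fun i => h1 (k + i + 1)
      simp only [(q _).1, (q _).2] at a
      exact ⟨a 0, a 1⟩
  rw [ip_Ind3, W3.card, sum_congr rfl fun j _ =>
    sum_eq_single j (fun k _ hk => z j k hk.symm) (by simp)]
  simp [(h _).2]

theorem Good.ext3 {χ : H → ℂ} (h : Good χ) {ε : ℂ} (hε : ε ^ 3 = 1) : Good (Ext3 ε χ) := by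
  refine ⟨h.1.ext3 hε, ?_⟩
  have e : ∀ a b : H, ∑ c, χ (a * b * c) * χ (c⁻¹ * b⁻¹ * a⁻¹) = Fintype.card H := fun a b => by
    rw [← h.2, ip, ← Equiv.sum_comp (Equiv.mulLeft (a * b)) fun g => χ g * χ g⁻¹]
    simp [mul_assoc]
  have e0 : ∑ f : Fin 3 → H, Ext3 ε χ ⟨f, 0⟩ * Ext3 ε χ (⟨f, 0⟩ : W3 H)⁻¹ =
      Fintype.card H ^ 3 := by
    have : ∏ _i : Fin 3, ip χ χ = Fintype.card H ^ 3 := by simp [h.2]
    rw [← this]
    simp only [ip]
    rw [prod_univ_sum, Fintype.piFinset_univ]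
    simp [Ext3, prod_mul_distrib]
  have e1 : ∑ f : Fin 3 → H, Ext3 ε χ ⟨f, 1⟩ * Ext3 ε χ (⟨f, 1⟩ : W3 H)⁻¹ =
      Fintype.card H ^ 3 := by
    have : ∀ a b c : H, Ext3 ε χ ⟨![a, b, c], 1⟩ * Ext3 ε χ (⟨![a, b, c], 1⟩ : W3 H)⁻¹ =
        χ (a * b * c) * χ (c⁻¹ * b⁻¹ * a⁻¹) := fun a b c => by
      have : Ext3 ε χ ⟨![a, b, c], 1⟩ = ε ^ 1 * χ (a * b * c) := rfl
      have : Ext3 ε χ (⟨![a, b, c], 1⟩ : W3 H)⁻¹ = ε ^ 2 * χ (c⁻¹ * b⁻¹ * a⁻¹) := by
        simp [Ext3, show (-1 : Fin 3) = 2 by decide]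
      simp only [*]
      linear_combination χ (a * b * c) * χ (c⁻¹ * b⁻¹ * a⁻¹) * hε
    simp only [sum_fun3, this, e]
    simp; ring
  have e2 : ∑ f : Fin 3 → H, Ext3 ε χ ⟨f, 2⟩ * Ext3 ε χ (⟨f, 2⟩ : W3 H)⁻¹ =
      Fintype.card H ^ 3 := by
    have : ∀ a b c : H, Ext3 ε χ ⟨![a, b, c], 2⟩ * Ext3 ε χ (⟨![a, b, c], 2⟩ : W3 H)⁻¹ =
        χ (a * c * b) * χ (b⁻¹ * c⁻¹ * a⁻¹) := fun a b c => by
      have : Ext3 ε χ ⟨![a, b, c], 2⟩ = ε ^ 2 * χ (a * c * b) := rfl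
      have : Ext3 ε χ (⟨![a, b, c], 2⟩ : W3 H)⁻¹ = ε ^ 1 * χ (b⁻¹ * c⁻¹ * a⁻¹) := by
        simp [Ext3, show (-2 : Fin 3) = 1 by decide, show (1 - 2 : Fin 3) = 2 by decide]
      simp only [*]
      linear_combination χ (a * c * b) * χ (b⁻¹ * c⁻¹ * a⁻¹) * hε
    simp only [sum_fun3, this]
    rw [sum_congr rfl fun a _ => sum_comm]
    simp only [e]
    simp; ring
  rw [ip, W3.sum_eq, e0, e1, e2, W3.card]
  push_cast; ring

/-- the family on the wreath product -/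
def wrF3 {ι : Type} (c : ι → H → ℂ) : Set (W3 H → ℂ) :=
  {χ | (∃ t : Fin 3 → ι, ¬ (c (t 0) = c (t 1) ∧ c (t 1) = c (t 2)) ∧ χ = Ind3 fun i => c (t i)) ∨
    ∃ m ε, ε ^ 3 = 1 ∧ χ = Ext3 ε (c m)}

theorem good_wrF3 {ι : Type} {c : ι → H → ℂ} (h : ∀ m, Good (c m)) : ∀ χ ∈ wrF3 c, Good χ := by
  rintro χ (⟨t, ht, rfl⟩ | ⟨m, ε, hε, rfl⟩)
  · exact good_ind3 (fun i => h _) ht
  · exact (h m).ext3 hε

theorem om_cube (s : Bool) : om s ^ 3 = 1 := by
  have := om_sq s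
  simp only [zsmul_eq_mul, Int.cast_neg, Int.cast_one] at this
  linear_combination (om s - 1) * this

theorem om_add : 1 + om true + om false = 0 := by
  apply Complex.ext <;> simp [om]
  norm_num

omit [Fintype H] in
theorem Ind3_const (χ : H → ℂ) :
    Ind3 (fun _ => χ) = Ext3 1 χ + Ext3 (om true) χ + Ext3 (om false) χ := by
  have a := om_sq true
  have b := om_sq false
  simp only [zsmul_eq_mul, Int.cast_neg, Int.cast_one] at a b
  funext ⟨f, s⟩
  fin_cases s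
  · simp [Ind3, Ext3, Fin.sum_univ_three, Fin.prod_univ_three]
    ring
  · change 0 = 1 ^ 1 * χ _ + om true ^ 1 * χ _ + om false ^ 1 * χ _
    linear_combination (-χ _) * om_add
  · change 0 = 1 ^ 2 * χ _ + om true ^ 2 * χ _ + om false ^ 2 * χ _
    linear_combination χ _ * om_add - χ _ * a - χ _ * b

omit [Fintype H] in
theorem Det.wr3 {ι : Type} [Fintype ι] {c : ι → H → ℂ} {x : Fin 3 → H}
    (h : ∀ i, Det (Set.range c) (x i)) (hx : ∀ j, j ≠ 0 → ¬ IsConj (x 0) (x j)) :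
    Det (wrF3 c) ⟨x, 0⟩ := by
  choose d hd d1 d2 using h
  refine ⟨Ind3 d, ?_, ?_, ?_⟩
  · choose a ha using fun i => (Submodule.mem_span_range_iff_exists_fun ℂ).1 (hd i)
    have e : Ind3 d = ∑ t : Fin 3 → ι, (∏ i, a i (t i)) • Ind3 fun i => c (t i) := by
      funext w
      simp only [Ind3, ← ha, Finset.sum_apply, Pi.smul_apply, smul_eq_mul, prod_univ_sum,
        Fintype.piFinset_univ, prod_mul_distrib]
      split_ifs
      · rw [sum_comm]; simp only [mul_sum]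
      · simp
    rw [e]
    refine Submodule.sum_mem _ fun t _ => Submodule.smul_mem _ _ ?_
    by_cases ht : c (t 0) = c (t 1) ∧ c (t 1) = c (t 2)
    · have : (fun i => c (t i)) = fun _ => c (t 0) := by
        funext i; fin_cases i
        · rfl
        · exact ht.1.symm
        · exact (ht.1.trans ht.2).symm
      rw [this, Ind3_const]
      exact add_mem (add_mem (Submodule.subset_span (Or.inr ⟨_, _, one_pow 3, rfl⟩))
        (Submodule.subset_span (Or.inr ⟨_, _, om_cube _, rfl⟩)))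
        (Submodule.subset_span (Or.inr ⟨_, _, om_cube _, rfl⟩))
    · exact Submodule.subset_span (Or.inl ⟨t, ht, rfl⟩)
  · simp only [Ind3, W3.inv_s, neg_zero, if_true, W3.inv_f, sub_zero]
    rw [sum_eq_single 0 (fun j _ hj => prod_eq_zero (mem_univ 0) (by
      by_contra h0
      exact hx j hj (by simpa using d2 0 _ h0))) (by simp)]
    simpa [prod_ne_zero_iff] using d1
  · rintro ⟨f, s⟩ h
    simp only [Ind3, W3.inv_s, neg_eq_zero, W3.inv_f] at h
    split_ifs at h with hs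
    · subst hs
      obtain ⟨j, -, hj⟩ := exists_ne_zero_of_sum_ne_zero h
      choose u hu using fun i => isConj_iff.1 (d2 i _ (prod_ne_zero_iff.1 hj i (mem_univ i)))
      refine isConj_iff.2 ⟨⟨fun i => u (i - j), -j⟩, ?_⟩
      ext i
      · simpa [sub_eq_add_neg] using hu (i - j)
      · simp
    · exact absurd rfl h

omit [Fintype H]

/-- wreath product of a subgroup -/
def wrS3 (M : Subgroup H) : Subgroup (W3 H) where
  carrier := {w | ∀ i, w.f i ∈ M}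
  mul_mem' h1 h2 _ := M.mul_mem (h1 _) (h2 _)
  one_mem' _ := M.one_mem
  inv_mem' h _ := M.inv_mem (h _)

/-- base group of a subgroup -/
def baseS3 (M : Subgroup H) : Subgroup (W3 H) where
  carrier := {w | (∀ i, w.f i ∈ M) ∧ w.s = 0}
  mul_mem' h1 h2 := ⟨fun _ => M.mul_mem (h1.1 _) (h2.1 _), by simp [h1.2, h2.2]⟩
  one_mem' := ⟨fun _ => M.one_mem, rfl⟩
  inv_mem' h := ⟨fun _ => M.inv_mem (h.1 _), by simp [h.2]⟩

/-- transport along an isomorphism -/
def wrIso3 {H' : Type} [Group H'] (M : Subgroup H) (e : M ≃* H') : wrS3 M ≃* W3 H' where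
  toFun w := ⟨fun i => e ⟨w.1.f i, w.2 i⟩, w.1.s⟩
  invFun w := ⟨⟨fun i => e.symm (w.f i), w.s⟩, fun i => (e.symm (w.f i)).2⟩
  left_inv w := by ext <;> simp
  right_inv w := by ext <;> simp
  map_mul' v w := by
    ext i
    · exact map_mul e ⟨v.1.f i, v.2 i⟩ ⟨w.1.f _, w.2 _⟩
    · rfl

theorem Dat.wr3 {S B : Subgroup H} {x : Fin 3 → H} (h : ∀ i, Dat S B (x i)) :
    Dat (wrS3 S) (baseS3 B) ⟨x, 0⟩ where
  mem := ⟨fun i => (h i).mem, rfl⟩
  le := fun _ hw i => (h i).le (hw.1 i)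
  fpf := fun g hg i => (h i).fpf _ (by simpa [sub_eq_add_neg] using hg (i + g.s))
  cl := by
    rintro ⟨b, _⟩ ⟨hb, rfl⟩ ⟨c, _⟩ ⟨hc, rfl⟩ e
    ext i
    · simpa using (h i).cl _ (hb i) _ (hc i) (by simpa using congrArg (fun w => W3.f w i) e)
    · simp
  nor := by
    rintro m hm ⟨b, _⟩ ⟨hb, rfl⟩
    exact ⟨fun i => by simpa using (h i).nor _ (hm i) _ (hb (i + m.s)), by simp⟩

end Pool.Agent.Lib.MP_987db6_al
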