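import Pool.Agent.Lib.MP_987db6_al.Base

namespace Pool.Agent.Lib.MP_987db6_al

open QuaternionGroup SemidirectProduct

/-- quadratic forms -/
def qf : Q → ZMod 3 → ZMod 3 → ZMod 3
  | a i, x, y => if i = 1 then 2 * x * x + 2 * y * y else if i = 3 then x * x + y * y else 0
  | xa i, x, y => if i = 0 then x * x + x * y + 2 * y * y else if i = 1 then
      2 * x * x + x * y + y * y else if i = 2 then 2 * x * x + 2 * x * y + y * y else
      x * x + 2 * x * y + 2 * y * y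

/-- Weil character -/
def tW (g : K) : R :=
  if g.right = a 0 then (if g.left.a = 0 ∧ g.left.b = 0 then 3 * wp g.left.c else 0)
  else if g.right = a 2 then - wp g.left.c else wp (g.left.c + qf g.right g.left.a g.left.b)

theorem tr_rK : ∀ g, (rK g).trace = tW g := by decide +kernel

/-- sign -/
def sg (i : ZMod (2 * 2)) : ℤ := if i = 0 ∨ i = 2 then 1 else -1

/-- irreducible characters of `Q` -/
def psi (m : Fin 5) : Q → ℤ
  | a i => ![1, 1, sg i, sg i, if i = 0 then 2 else if i = 2 then -2 else 0] m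
  | xa i => ![1, -1, sg i, -sg i, 0] m

theorem psi_mul : ∀ m : Fin 5, m ≠ 4 → ∀ u v, psi m (u * v) = psi m u * psi m v := by
  decide +kernel

theorem psi_one : ∀ m : Fin 5, m ≠ 4 → psi m 1 = 1 := by decide +kernel

/-- two dimensional representation -/
def r2 : Q → Matrix (Fin 2) (Fin 2) R
  | a i => !![0, -1; 1, 0] ^ i.val
  | xa i => !![⟨0, 1⟩, ⟨-1, -1⟩; ⟨-1, -1⟩, ⟨0, -1⟩] * !![0, -1; 1, 0] ^ i.val

/-- two dimensional representation as a homomorphism -/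
def r2h : Q →* Matrix (Fin 2) (Fin 2) R where
  toFun := r2
  map_one' := by decide +kernel
  map_mul' := by decide +kernel

theorem tr_r2 : ∀ u, (r2h u).trace = (psi 4 u : R) := by decide +kernel

/-- the two types of central behaviour -/
def tt (l : Bool) (g : K) : R := if l then tW g else 1

theorem norm_c : ∀ (l : Bool) (m : Fin 5),
    ∑ g : K, (tt l g * (psi m g.right : R)) * (tt l g⁻¹ * (psi m g⁻¹.right : R)) = 216 := by
  decide +kernel

/-- detecting functions -/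
def fz (e : ℤ) (c : Fin 5 → ℤ) (g : K) : ℤ :=
  (1 + e * (2 * (tW g).re - (tW g).im)) * ∑ m, c m * psi m g.right

theorem det_i : fz 1 ![1, 1, -1, -1, 0] (inr (a 1))⁻¹ ≠ 0 ∧
    ∀ g : K, fz 1 ![1, 1, -1, -1, 0] g⁻¹ ≠ 0 → ∃ h : K, h * inr (a 1) * h⁻¹ = g := by
  decide +kernel

theorem det_j : fz 1 ![1, -1, 1, -1, 0] (inr (xa 0))⁻¹ ≠ 0 ∧
    ∀ g : K, fz 1 ![1, -1, 1, -1, 0] g⁻¹ ≠ 0 → ∃ h : K, h * inr (xa 0) * h⁻¹ = g := by
  decide +kernel

theorem det_k : fz 1 ![1, -1, -1, 1, 0] (inr (xa 1))⁻¹ ≠ 0 ∧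
    ∀ g : K, fz 1 ![1, -1, -1, 1, 0] g⁻¹ ≠ 0 → ∃ h : K, h * inr (xa 1) * h⁻¹ = g := by
  decide +kernel

theorem det_m : fz (-1) ![1, 1, 1, 1, -2] (inr (a 2))⁻¹ ≠ 0 ∧
    ∀ g : K, fz (-1) ![1, 1, 1, 1, -2] g⁻¹ ≠ 0 → ∃ h : K, h * inr (a 2) * h⁻¹ = g := by
  decide +kernel

theorem not_conj : ∀ h : Q, h * xa 0 * h⁻¹ ≠ xa 1 ∧ h * a 1 * h⁻¹ ≠ a 2 ∧
    h * xa 1 * h⁻¹ ≠ a 2 ∧ h * xa 0 * h⁻¹ ≠ a 2 := by decide +kernel

/-- the subgroup `C3 × Q8` -/
def L : Subgroup K where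
  carrier := {g | g.left.a = 0 ∧ g.left.b = 0}
  mul_mem' := by
    have : ∀ x y : K, x.left.a = 0 ∧ x.left.b = 0 → y.left.a = 0 ∧ y.left.b = 0 →
      (x * y).left.a = 0 ∧ (x * y).left.b = 0 := by decide +kernel
    exact fun {x y} => this x y
  one_mem' := ⟨rfl, rfl⟩
  inv_mem' := by
    have : ∀ x : K, x.left.a = 0 ∧ x.left.b = 0 →
      x⁻¹.left.a = 0 ∧ x⁻¹.left.b = 0 := by decide +kernel
    exact fun {x} => this x

theorem mem_L {g : K} : g ∈ L ↔ g.left.a = 0 ∧ g.left.b = 0 := Iff.rfl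

instance : DecidablePred (· ∈ L) := fun _ => decidable_of_iff _ mem_L.symm

theorem L_fpf : ∀ u : Q, u ≠ 1 → ∀ g : K, g⁻¹ * inr u * g ∈ L → g ∈ L := by decide +kernel

theorem L_cl2 : ∀ u : Q, ∀ b ∈ L, ∀ h ∈ L, h * inr u = inr u * h →
    b * h * b⁻¹ * inr u = inr u * (b * h * b⁻¹) := by decide +kernel

theorem L_c : ∀ x ∈ L, ∀ y ∈ L, (x * y).left.c = x.left.c + y.left.c := by decide +kernel

theorem wp_add : ∀ c d, wp (c + d) = wp c * wp d := by decide +kernel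

end Pool.Agent.Lib.MP_987db6_al
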