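import Pool.Agent.Lib.MP_987db6_al.Level0

namespace Pool.Agent.Lib.MP_987db6_al

open QuaternionGroup SemidirectProduct

open Classical in
/-- induced functions of pairs from a family -/
noncomputable def pairs {H ι : Type} [Fintype ι] (f : ι → H → ℂ) : Finset (W H → ℂ) :=
  ((Finset.univ : Finset ι).offDiag.image Sym2.mk.uncurry).image
    (Sym2.lift ⟨fun i j => Ind (f i) (f j), fun _ _ => Ind_comm _ _⟩)

theorem mem_pairs {H ι : Type} [Fintype ι] (f : ι → H → ℂ) (χ : W H → ℂ) :
    χ ∈ pairs f ↔ ∃ i j, i ≠ j ∧ χ = Ind (f i) (f j) := by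
  classical
  simp only [pairs, Finset.mem_image, Finset.mem_offDiag, Finset.mem_univ, true_and]
  constructor
  · rintro ⟨_, ⟨⟨i, j⟩, h, rfl⟩, rfl⟩
    exact ⟨i, j, h, rfl⟩
  · rintro ⟨i, j, h, rfl⟩
    exact ⟨_, ⟨⟨i, j⟩, h, rfl⟩, rfl⟩

theorem card_pairs_le {H ι : Type} [Fintype ι] (f : ι → H → ℂ) :
    (pairs f).card ≤ (Fintype.card ι).choose 2 := by
  classical
  unfold pairs
  refine (@Finset.card_image_le _ _ _ (_) _).trans ?_
  convert (Sym2.card_image_offDiag (Finset.univ : Finset ι)).le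
  rfl

theorem card_pairs {H ι : Type} [Group H] [Fintype H] [Fintype ι] (f : ι → H → ℂ)
    (hf : ∀ i, Good (f i)) (hi : Function.Injective f) :
    (pairs f).card = (Fintype.card ι).choose 2 := by
  classical
  unfold pairs
  rw [@Finset.card_image_of_injOn _ _ _ _ (_)]
  · convert (Sym2.card_image_offDiag (Finset.univ : Finset ι))
    rfl
  · intro p hp q hq e
    simp only [Finset.coe_image, Set.mem_image, Finset.mem_coe, Finset.mem_offDiag,
      Finset.mem_univ, true_and] at hp hq
    obtain ⟨⟨i, j⟩, hij, rfl⟩ := hp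
    obtain ⟨⟨k, l⟩, hkl, rfl⟩ := hq
    simp only [Function.uncurry, Sym2.lift_mk] at e ⊢
    have h1 := ((hf i).ind (hf j) (hi.ne hij)).2
    nth_rewrite 2 [e] at h1
    rw [ip_Ind] at h1
    have hz : ∀ a b, a ≠ b → ip (f a) (f b) = 0 := fun a b h =>
      (hf a).isIrr.ip_eq_zero (hf b).isIrr (hi.ne h)
    have hc : ((Fintype.card (W H) : ℕ) : ℂ) ≠ 0 := Nat.cast_ne_zero.2 Fintype.card_ne_zero
    rw [Sym2.eq_iff]
    by_contra hn
    apply hc
    rw [← h1]
    push Not at hn
    have a1 : ip (f i) (f k) * ip (f j) (f l) = 0 := by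
      by_cases h : i = k
      · rw [hz j l (hn.1 h), mul_zero]
      · rw [hz i k h, zero_mul]
    have a2 : ip (f i) (f l) * ip (f j) (f k) = 0 := by
      by_cases h : i = l
      · rw [hz j k (hn.2 h), mul_zero]
      · rw [hz i l h, zero_mul]
    rw [a1, a2]; simp

@[simp] theorem W.one_l {H : Type} [Group H] : (1 : W H).l = 1 := rfl
@[simp] theorem W.one_r {H : Type} [Group H] : (1 : W H).r = 1 := rfl
@[simp] theorem W.one_s {H : Type} [Group H] : (1 : W H).s = false := rfl

/-- degrees -/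
def dg (l : Bool) (m : Fin 5) : ℕ := (if l then 3 else 1) * (if m = 4 then 2 else 1)

theorem chi_one (s l : Bool) (m : Fin 5) : chi s l m 1 = dg l m := by
  have : ∀ (l : Bool) (m : Fin 5), tt l 1 * (psi m (1 : K).right : R) = (dg l m : ℕ) := by
    decide +kernel
  rw [chi, this, map_natCast]

theorem chi_x0 (s l : Bool) (m : Fin 4) :
    chi s l m.castSucc (inr (xa 0)) * chi s l m.castSucc (inr (xa 1)) =
      psi m.castSucc (a 1) := by
  have : ∀ (l : Bool) (m : Fin 4), (tt l (inr (xa 0)) * (psi m.castSucc (xa 0) : R)) *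
      (tt l (inr (xa 1)) * (psi m.castSucc (xa 1) : R)) = (psi m.castSucc (a 1) : R) := by
    decide +kernel
  rw [chi, chi, ← map_mul, right_inr, right_inr, this, map_intCast]

theorem chi_y0 (s l : Bool) (m : Fin 4) :
    chi s l m.castSucc (inr (a 1)) * chi s l m.castSucc (inr (a 2)) =
      ((if l then -1 else 1 : ℤ) * psi m.castSucc (a 1) : ℤ) := by
  have : ∀ (l : Bool) (m : Fin 4), (tt l (inr (a 1)) * (psi m.castSucc (a 1) : R)) *
      (tt l (inr (a 2)) * (psi m.castSucc (a 2) : R)) =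
      (((if l then -1 else 1 : ℤ) * psi m.castSucc (a 1) : ℤ) : R) := by
    decide +kernel
  rw [chi, chi, ← map_mul, right_inr, right_inr, this, map_intCast]

/-- odd degree characters of the first wreath product -/
noncomputable def al (s l e : Bool) (m : Fin 4) : W K → ℂ :=
  Ext (if e then 1 else -1) (chi s l m.castSucc)

theorem deg_F1 : ∀ α ∈ wrF F0, ∃ D : ℕ, α 1 = D ∧ (Odd D → ∃ s l e m, α = al s l e m) := by
  have key : ∀ (s l e : Bool) (m : Fin 5), ∃ D : ℕ, Ext (if e then 1 else -1) (chi s l m) 1 = D ∧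
      (Odd D → ∃ s' l' e' m', Ext (if e then 1 else -1) (chi s l m) = al s' l' e' m') := by
    intro s l e m
    refine ⟨dg l m * dg l m, by simp [Ext, chi_one], fun h => ?_⟩
    have hm : m ≠ 4 := by
      rintro rfl
      revert h; cases l <;> decide
    obtain ⟨m', rfl⟩ := Fin.exists_castSucc_eq.2 hm
    exact ⟨s, l, e, m', rfl⟩
  rintro α (⟨_, ⟨s, l, m, rfl⟩, _, ⟨s', l', m', rfl⟩, _, rfl⟩ | ⟨_, ⟨s, l, m, rfl⟩, rfl | rfl⟩)
  · refine ⟨2 * (dg l m * dg l' m'), ?_, fun h => ?_⟩
    · simp [Ind, chi_one]; ring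
    · exact absurd h (by simp)
  · exact key s l true m
  · exact key s l false m

open Classical in
/-- the candidates -/
noncomputable def cand : Finset (W (W K) → ℂ) :=
  pairs (fun p : Bool × Fin 4 => al true false p.1 p.2) ∪
    pairs (fun p : Bool × Bool × Fin 4 => al p.1 true p.2.1 p.2.2)

theorem card_cand : cand.card ≤ 148 := by
  classical
  refine (Finset.card_union_le _ _).trans ?_
  have h1 := card_pairs_le (fun p : Bool × Fin 4 => al true false p.1 p.2)
  have h2 := card_pairs_le (fun p : Bool × Bool × Fin 4 => al p.1 true p.2.1 p.2.2)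
  have e1 : (Fintype.card (Bool × Fin 4)).choose 2 = 28 := by decide
  have e2 : (Fintype.card (Bool × Bool × Fin 4)).choose 2 = 120 := by decide
  omega

theorem al_false (s e : Bool) (m : Fin 4) : al s false e m = al true false e m := by
  unfold al
  congr 1
  funext g; simp [chi, tt]

theorem mem_cand {χ : W (W K) → ℂ} (h : IsIrr χ) (hx : χ xx ≠ 0) (n : ℕ) (hn : χ 1 = n)
    (hv : padicValNat 2 n = 1) : χ ∈ cand := by
  classical
  rcases det_xx.mem (good_wrF (good_wrF good_F0)) h hx with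
    ⟨α, hα, β, hβ, hne, rfl⟩ | ⟨α, hα, h'⟩
  · obtain ⟨D, hD, h1⟩ := deg_F1 α hα
    obtain ⟨D', hD', h2⟩ := deg_F1 β hβ
    have e : n = 2 * (D * D') := by
      have : ((2 * (D * D') : ℕ) : ℂ) = n := by
        rw [← hn]; simp [Ind, hD, hD']; ring
      exact_mod_cast this.symm
    have hodd : Odd (D * D') := by
      by_contra ho
      obtain ⟨k, hk⟩ := Nat.not_odd_iff_even.1 ho
      have hn0 : n ≠ 0 := by rintro rfl; simp at hv
      have : 2 ^ 2 ∣ n := ⟨k, by rw [e, hk]; ring⟩
      rw [padicValNat_dvd_iff_le hn0] at this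
      omega
    obtain ⟨s, l, e, m, rfl⟩ := h1 (Nat.odd_mul.1 hodd).1
    obtain ⟨s', l', e', m', rfl⟩ := h2 (Nat.odd_mul.1 hodd).2
    have hl : l = l' := by
      by_contra hl
      apply hx
      simp only [Ind, xx, al, Ext, x0, y0, Bool.false_eq_true, if_false, chi_x0, chi_y0]
      cases l <;> cases l' <;> simp at hl ⊢
    subst hl
    rw [cand, Finset.mem_union, mem_pairs, mem_pairs]
    cases l
    · left
      rw [al_false s, al_false s'] at hne ⊢
      exact ⟨(e, m), (e', m'), fun h => hne (by cases h; rfl), rfl⟩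
    · right
      exact ⟨(s, e, m), (s', e', m'), fun h => hne (by cases h; rfl), rfl⟩
  · exfalso
    obtain ⟨D, hD, _⟩ := deg_F1 α hα
    have e : n = D ^ 2 := by
      have : ((D ^ 2 : ℕ) : ℂ) = n := by
        rw [← hn]
        rcases h' with rfl | rfl <;> simp [Ext, hD, pow_two]
      exact_mod_cast this.symm
    rw [e, padicValNat.pow] at hv
    omega

end Pool.Agent.Lib.MP_987db6_al
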